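import Pool.Agent.H568.PH.Stm

/-!
Project PH, task BL: the double large sieve for blocks of frequencies, with coefficients.
(Adapted from `Pool/Agent/H568/LB/P/BLK.lean`.)
-/

set_option autoImplicit false

open Finset Filter Topology Pool.Agent.N792 Pool.Agent.H568.PH
open Pool.Agent.H469R2.NK (e)

namespace Pool.Agent.H568.PH.PBL

/-- the bound for the square -/
theorem bl_sq (C1 : ℝ) (hC1 : 0 < C1) (hSP : ∀ (H J : ℕ) (Δ : ℝ), 1 ≤ H → 1 ≤ J → 0 ≤ Δ →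
      (#(((Ico H (2 * H) ×ˢ Ioc J (2 * J)) ×ˢ (Ico H (2 * H) ×ˢ Ioc J (2 * J))).filter
        (fun v : (ℕ × ℕ) × (ℕ × ℕ) =>
        |(v.1.1 : ℝ) ^ 2 * v.1.2 - (v.2.1 : ℝ) ^ 2 * v.2.2| ≤ Δ * ((H : ℝ) ^ 2 * J))) : ℝ) ≤
        C1 * ((H : ℝ) * J * (1 + Real.log (H * J)) ^ 2 + Δ * ((H : ℝ) * J) ^ 2))
    (a H J K : ℕ) (ha : 1 ≤ a) (hH : 1 ≤ H) (hJ1 : 1 ≤ J) (hJK : J ≤ K)
    (α β ω : ℕ → ℂ) (hα : ∀ r, ‖α r‖ ≤ 1) (hβ : ∀ s, ‖β s‖ ≤ 1) (hω : ∀ h, ‖ω h‖ ≤ 1) :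
    ‖∑ h ∈ Ico H (2 * H), ω h * ∑ r ∈ Ioc J (2 * J), ∑ s ∈ Ioc K (2 * K),
        α r * β s * e (h / √(a : ℝ) * (√(r : ℝ) * √(s : ℝ)))‖ ^ 2 ≤
      9600 * (C1 * (1 + √(a : ℝ)) * (1 + Real.log (H * J)) ^ 2 * ((H : ℝ) ^ 2 * (J * K * √((J : ℝ) * K)) +
        H * (J * K * K))) := by
  have haR : (1 : ℝ) ≤ a := by exact_mod_cast ha
  have hHR : (1 : ℝ) ≤ H := by exact_mod_cast hH
  have hJR : (1 : ℝ) ≤ J := by exact_mod_cast hJ1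
  have hJKR : (J : ℝ) ≤ K := by exact_mod_cast hJK
  have hJ0 : (0 : ℝ) < J := by linarith
  have hK0 : (0 : ℝ) < K := by linarith
  obtain ⟨j, hj⟩ : ∃ j : ℝ, j = √(J : ℝ) := ⟨_, rfl⟩
  obtain ⟨k, hk⟩ : ∃ k : ℝ, k = √(K : ℝ) := ⟨_, rfl⟩
  obtain ⟨w, hw⟩ : ∃ w : ℝ, w = √(2 : ℝ) := ⟨_, rfl⟩
  obtain ⟨c, hc⟩ : ∃ c : ℝ, c = √(a : ℝ) := ⟨_, rfl⟩
  obtain ⟨L, hL⟩ : ∃ L : ℝ, L = 1 + Real.log ((H : ℝ) * J) := ⟨_, rfl⟩
  have hHJ1 : (1 : ℝ) ≤ (H : ℝ) * J := one_le_mul_of_one_le_of_one_le hHR hJR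
  have hL1 : 1 ≤ L := by
    rw [hL]
    have := Real.log_nonneg hHJ1
    linarith
  have hj0 : 0 < j := by rw [hj]; exact Real.sqrt_pos.2 hJ0
  have hk0 : 0 < k := by rw [hk]; exact Real.sqrt_pos.2 hK0
  have hw0 : 0 < w := by rw [hw]; positivity
  have hc1 : 1 ≤ c := by rw [hc, Real.one_le_sqrt]; exact haR
  have hc0 : 0 < c := by linarith
  have hjj : j * j = J := by rw [hj]; exact Real.mul_self_sqrt hJ0.le
  have hkk : k * k = K := by rw [hk]; exact Real.mul_self_sqrt hK0.le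
  have hww : w * w = 2 := by rw [hw]; exact Real.mul_self_sqrt (by norm_num)
  have hjk : j ≤ k := by rw [hj, hk]; exact Real.sqrt_le_sqrt hJKR
  have hP : √((J : ℝ) * K) = j * k := by rw [hj, hk]; exact Real.sqrt_mul hJ0.le _
  have hsle : ∀ s : ℕ, s ≤ 2 * K → √(s : ℝ) ≤ w * k := by
    intro s hs
    rw [hw, hk, ← Real.sqrt_mul (by norm_num)]
    apply Real.sqrt_le_sqrt
    exact_mod_cast hs
  have hrle : ∀ s : ℕ, s ≤ 2 * J → √(s : ℝ) ≤ w * j := by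
    intro s hs
    rw [hw, hj, ← Real.sqrt_mul (by norm_num)]
    apply Real.sqrt_le_sqrt
    exact_mod_cast hs
  obtain ⟨θ, hθ⟩ : ∃ θ : ℝ, θ = 1 / c := ⟨_, rfl⟩
  have hθ0 : 0 < θ := by rw [hθ]; positivity
  have hθ1 : θ ≤ 1 := by rw [hθ, div_le_one hc0]; exact hc1
  obtain ⟨Y, hY⟩ : ∃ Y : ℝ, Y = θ * (w * k) := ⟨_, rfl⟩
  have hY0 : 0 < Y := by rw [hY]; positivity
  obtain ⟨Z, hZ⟩ : ∃ Z : ℝ, Z = H * (j * k) := ⟨_, rfl⟩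
  have hj1 : 1 ≤ j := by rw [hj, Real.one_le_sqrt]; linarith
  have hZ1 : 1 ≤ Z := by
    rw [hZ]
    exact one_le_mul_of_one_le_of_one_le hHR (one_le_mul_of_one_le_of_one_le hj1 (hj1.trans hjk))
  have hZ0 : 0 < Z := by linarith
  obtain ⟨J', hJ'⟩ : ∃ J' : ℕ, J' = ⌊16 * (θ * Z)⌋₊ + 1 := ⟨_, rfl⟩
  have hJ'1 : 1 ≤ J' := by omega
  have hJ'lt : 16 * (θ * Z) < J' := by rw [hJ']; push_cast; exact Nat.lt_floor_add_one _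
  have hθZ : θ * Z ≤ Z := mul_le_of_le_one_left (by linarith) hθ1
  have hJ'le : (J' : ℝ) ≤ 17 * Z := by
    rw [hJ']; push_cast
    have := Nat.floor_le (show 0 ≤ 16 * (θ * Z) by positivity)
    linarith
  have hmem : ∀ p ∈ Ico H (2 * H) ×ˢ Ioc J (2 * J),
      (H ≤ p.1 ∧ p.1 < 2 * H) ∧ (J < p.2 ∧ p.2 ≤ 2 * J) := by
    intro p hp
    rw [mem_product, mem_Ico, mem_Ioc] at hp
    exact hp
  have hSm : ∀ s ∈ Ioc K (2 * K), K < s ∧ s ≤ 2 * K := fun s hs => mem_Ioc.1 hs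
  have hx : ∀ p ∈ Ico H (2 * H) ×ˢ Ioc J (2 * J), 0 ≤ (p.1 : ℝ) * √(p.2 : ℝ) ∧
      (p.1 : ℝ) * √(p.2 : ℝ) * (4 * Y) < J' := by
    intro p hp
    obtain ⟨⟨h1, h2⟩, ⟨h3, h4⟩⟩ := hmem p hp
    refine ⟨by positivity, ?_⟩
    have h5 : (p.1 : ℝ) ≤ 2 * H := by exact_mod_cast h2.le
    calc (p.1 : ℝ) * √(p.2 : ℝ) * (4 * Y) ≤ (2 * H) * (w * j) * (4 * Y) := by
          gcongr
          exact hrle _ h4
      _ = 8 * (w * w) * (θ * (H * (j * k))) := by rw [hY]; ring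
      _ = 16 * (θ * Z) := by rw [hww, hZ]; ring
      _ < J' := hJ'lt
  have hy : ∀ s ∈ Ioc K (2 * K), 0 ≤ θ * √(s : ℝ) ∧ θ * √(s : ℝ) ≤ Y := by
    intro s hs
    refine ⟨by positivity, ?_⟩
    rw [hY]
    gcongr
    exact hsle s (hSm s hs).2
  have hNx : (#(((Ico H (2 * H) ×ˢ Ioc J (2 * J)) ×ˢ (Ico H (2 * H) ×ˢ Ioc J (2 * J))).filter (fun v =>
      |(v.1.1 : ℝ) * √(v.1.2 : ℝ) - (v.2.1 : ℝ) * √(v.2.2 : ℝ)| ≤ 1 / (4 * Y))) : ℝ) ≤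
      C1 * ((1 + c) * (H * J * L ^ 2)) := by
    have hsub : ((Ico H (2 * H) ×ˢ Ioc J (2 * J)) ×ˢ (Ico H (2 * H) ×ˢ Ioc J (2 * J))).filter (fun v =>
        |(v.1.1 : ℝ) * √(v.1.2 : ℝ) - (v.2.1 : ℝ) * √(v.2.2 : ℝ)| ≤ 1 / (4 * Y)) ⊆
        ((Ico H (2 * H) ×ˢ Ioc J (2 * J)) ×ˢ (Ico H (2 * H) ×ˢ Ioc J (2 * J))).filter
          (fun v : (ℕ × ℕ) × (ℕ × ℕ) =>
          |(v.1.1 : ℝ) ^ 2 * v.1.2 - (v.2.1 : ℝ) ^ 2 * v.2.2| ≤ c / Z * ((H : ℝ) ^ 2 * J)) := by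
      intro v hv
      rw [mem_filter, mem_product] at hv ⊢
      obtain ⟨⟨h1, h2⟩, h3⟩ := hv
      refine ⟨⟨h1, h2⟩, ?_⟩
      obtain ⟨⟨_, g2⟩, ⟨_, g4⟩⟩ := hmem _ h1
      obtain ⟨⟨_, g2'⟩, ⟨_, g4'⟩⟩ := hmem _ h2
      have g2r : (v.1.1 : ℝ) ≤ 2 * H := by exact_mod_cast g2.le
      have g2r' : (v.2.1 : ℝ) ≤ 2 * H := by exact_mod_cast g2'.le
      have k1 := hrle _ g4
      have k2 := hrle _ g4'
      have s1 := Real.mul_self_sqrt (Nat.cast_nonneg (α := ℝ) v.1.2)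
      have s2 := Real.mul_self_sqrt (Nat.cast_nonneg (α := ℝ) v.2.2)
      have h5 : ((v.1.1 : ℝ) ^ 2 * (v.1.2 : ℝ) - (v.2.1 : ℝ) ^ 2 * (v.2.2 : ℝ)) =
          ((v.1.1 : ℝ) * √(v.1.2 : ℝ) - (v.2.1 : ℝ) * √(v.2.2 : ℝ)) *
          ((v.1.1 : ℝ) * √(v.1.2 : ℝ) + (v.2.1 : ℝ) * √(v.2.2 : ℝ)) := by
        calc _ = (v.1.1 : ℝ) ^ 2 * (√(v.1.2 : ℝ) * √(v.1.2 : ℝ)) -
              (v.2.1 : ℝ) ^ 2 * (√(v.2.2 : ℝ) * √(v.2.2 : ℝ)) := by rw [s1, s2]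
          _ = _ := by ring
      rw [h5, abs_mul, abs_of_nonneg
        (by positivity : 0 ≤ (v.1.1 : ℝ) * √(v.1.2 : ℝ) + (v.2.1 : ℝ) * √(v.2.2 : ℝ))]
      calc _ ≤ 1 / (4 * Y) * ((2 * H) * (w * j) + (2 * H) * (w * j)) := by
            gcongr
        _ = c / Z * ((H : ℝ) ^ 2 * J) := by
            rw [hY, hθ, hZ, ← hjj]
            field_simp
            ring
    have hΔ := hSP H J (c / Z) hH hJ1 (by positivity)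
    have hcard : (#(((Ico H (2 * H) ×ˢ Ioc J (2 * J)) ×ˢ (Ico H (2 * H) ×ˢ Ioc J (2 * J))).filter (fun v =>
        |(v.1.1 : ℝ) * √(v.1.2 : ℝ) - (v.2.1 : ℝ) * √(v.2.2 : ℝ)| ≤ 1 / (4 * Y))) : ℝ) ≤
        (#(((Ico H (2 * H) ×ˢ Ioc J (2 * J)) ×ˢ (Ico H (2 * H) ×ˢ Ioc J (2 * J))).filter
          (fun v : (ℕ × ℕ) × (ℕ × ℕ) =>
          |(v.1.1 : ℝ) ^ 2 * v.1.2 - (v.2.1 : ℝ) ^ 2 * v.2.2| ≤ c / Z * ((H : ℝ) ^ 2 * J))) : ℝ) := by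
      exact_mod_cast card_le_card hsub
    refine (hcard.trans hΔ).trans ?_
    refine mul_le_mul_of_nonneg_left ?_ hC1.le
    rw [← hL]
    have e1 : c / Z * ((H : ℝ) * J) ^ 2 = c * (H * J) * (j / k) := by
      rw [hZ, ← hjj]
      field_simp
    have e2 : c * (H * J) * (j / k) ≤ c * (H * J) * 1 := by
      gcongr
      rw [div_le_one hk0]
      exact hjk
    have e3 : c * ((H : ℝ) * J) * 1 ≤ c * (H * J) * L ^ 2 := by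
      gcongr
      exact one_le_pow₀ hL1
    calc (H : ℝ) * J * L ^ 2 + c / Z * ((H : ℝ) * J) ^ 2
        ≤ (H : ℝ) * J * L ^ 2 + c * (H * J) * L ^ 2 := by
          rw [e1]
          linarith
      _ = (1 + c) * (H * J * L ^ 2) := by ring
  have hNy := grid_sqrt (J' := J') (S := Ioc K (2 * K)) le_rfl (by omega : 1 ≤ K) hθ0 hJ'1 hk hw hY hSm
    (fun _ _ _ _ => Nat.modEq_one)
  have hmain := Pool.Agent.H373R2.T4.dls (Ico H (2 * H) ×ˢ Ioc J (2 * J)) (Ioc K (2 * K))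
    (fun p : ℕ × ℕ => (p.1 : ℝ) * √(p.2 : ℝ)) (fun s => θ * √(s : ℝ)) (fun p => ω p.1 * α p.2)
    β Y hY0 J' hJ'1 hx hy 1 1 (fun p _ => by
      show ‖ω p.1 * α p.2‖ ≤ 1
      rw [norm_mul]
      exact mul_le_one₀ (hω p.1) (norm_nonneg _) (hα p.2)) (fun s _ => hβ s) zero_le_one
    zero_le_one _ _ hNx hNy
  have heq : ∑ h ∈ Ico H (2 * H), ω h * ∑ r ∈ Ioc J (2 * J), ∑ s ∈ Ioc K (2 * K),
        α r * β s * e (h / √(a : ℝ) * (√(r : ℝ) * √(s : ℝ))) =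
      ∑ p ∈ Ico H (2 * H) ×ˢ Ioc J (2 * J), ∑ s ∈ Ioc K (2 * K), ω p.1 * α p.2 * β s *
        e ((p.1 : ℝ) * √(p.2 : ℝ) * (θ * √(s : ℝ))) := by
    rw [Finset.sum_product]
    refine Finset.sum_congr rfl fun h _ => ?_
    rw [Finset.mul_sum]
    refine Finset.sum_congr rfl fun r _ => ?_
    rw [Finset.mul_sum]
    refine Finset.sum_congr rfl fun s _ => ?_
    have e4 : (h : ℝ) / √(a : ℝ) * (√(r : ℝ) * √(s : ℝ)) = (h : ℝ) * √(r : ℝ) * (θ * √(s : ℝ)) := by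
      rw [hθ, hc]
      ring
    rw [e4]
    ring
  rw [heq]
  refine hmain.trans ?_
  rw [hP, Nat.cast_one, div_one, one_pow, one_mul, one_mul, ← hL, ← hc]
  calc 25 * (C1 * ((1 + c) * (H * J * L ^ 2)) * (3 * (K : ℝ) * (4 * J' + 128 * K)))
      ≤ 25 * (C1 * ((1 + c) * (H * J * L ^ 2)) * (3 * (K : ℝ) * (4 * (17 * Z) + 128 * K))) := by
        gcongr
    _ ≤ 25 * (C1 * ((1 + c) * (H * J * L ^ 2)) * (3 * (K : ℝ) * (128 * (Z + K)))) := by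
        gcongr
        linarith
    _ = _ := by rw [hZ]; ring

theorem t_BL : S_BL := by
  intro hSP0 a m ha hm
  obtain ⟨C1, hC1, hSP⟩ := hSP0
  have haR : (1 : ℝ) ≤ a := by exact_mod_cast ha
  have hmR : (1 : ℝ) ≤ m := by exact_mod_cast hm
  obtain ⟨c, hc⟩ : ∃ c : ℝ, c = √(a : ℝ) := ⟨_, rfl⟩
  have hc1 : 1 ≤ c := by rw [hc, Real.one_le_sqrt]; exact haR
  refine ⟨100 * (1 + C1) * (1 + c) * m, by positivity, ?_⟩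
  intro x J K hx hJ hJK hJKx α β hα hβ H ω hH hω
  have hxr : (1 : ℝ) ≤ x := by exact_mod_cast hx
  have hxp : (0 : ℝ) < x := by linarith
  have hHR : (1 : ℝ) ≤ H := by exact_mod_cast hH
  have hJR : (1 : ℝ) ≤ J := by exact_mod_cast hJ
  have hJKR : (J : ℝ) ≤ K := by exact_mod_cast hJK
  have hJ0 : (0 : ℝ) < J := by linarith
  have hK0 : (0 : ℝ) < K := by linarith
  obtain ⟨L, hL⟩ : ∃ L : ℝ, L = 1 + Real.log ((H : ℝ) * J) := ⟨_, rfl⟩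
  have hL1 : 1 ≤ L := by
    rw [hL]
    have := Real.log_nonneg (one_le_mul_of_one_le_of_one_le hHR hJR)
    linarith
  obtain ⟨u, hu⟩ : ∃ u : ℝ, u = (x : ℝ) ^ (3 / 2 : ℝ) := ⟨_, rfl⟩
  have hu0 : 0 < u := by rw [hu]; positivity
  have huu : u ^ 2 = (x : ℝ) ^ 3 := by
    rw [hu, ← Real.rpow_natCast ((x : ℝ) ^ (3 / 2 : ℝ)) 2, ← Real.rpow_mul hxp.le]
    norm_num
  obtain ⟨v, hv⟩ : ∃ v : ℝ, v = √((H : ℝ) * K) := ⟨_, rfl⟩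
  have hv0 : 0 ≤ v := by rw [hv]; exact Real.sqrt_nonneg _
  have hvv : v ^ 2 = H * K := by rw [hv]; exact Real.sq_sqrt (by positivity)
  have hP : √((J : ℝ) * K) ≤ m * x := by
    refine Real.sqrt_le_iff.2 ⟨by positivity, hJKx.trans ?_⟩
    rw [mul_pow]
    gcongr
    nlinarith
  have hsq := bl_sq C1 hC1 hSP a H J K ha hH hJ hJK α β ω hα hβ hω
  rw [← hL, ← hc] at hsq
  rw [← hL, ← hu, ← hv, ← hc]
  have q1 : (J : ℝ) * K * √((J : ℝ) * K) ≤ (m * x ^ 2) * (m * x) :=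
    mul_le_mul hJKx hP (Real.sqrt_nonneg _) (by positivity)
  have q2 : (J : ℝ) * K * K ≤ (m * x ^ 2) * K :=
    mul_le_mul_of_nonneg_right hJKx hK0.le
  have hmm : (m : ℝ) ≤ m ^ 2 := by nlinarith
  have hkey : (H : ℝ) ^ 2 * (J * K * √((J : ℝ) * K)) + H * (J * K * K) ≤
      m ^ 2 * (u * H + x * v) ^ 2 := by
    calc (H : ℝ) ^ 2 * (J * K * √((J : ℝ) * K)) + H * (J * K * K)
        ≤ (H : ℝ) ^ 2 * ((m * x ^ 2) * (m * x)) + H * ((m * x ^ 2) * K) := by gcongr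
      _ = m ^ 2 * ((x : ℝ) ^ 3 * (H : ℝ) ^ 2) + m * ((x : ℝ) ^ 2 * (H * K)) := by ring
      _ ≤ m ^ 2 * ((x : ℝ) ^ 3 * (H : ℝ) ^ 2) + m ^ 2 * ((x : ℝ) ^ 2 * (H * K)) := by gcongr
      _ = m ^ 2 * ((u * H) ^ 2 + (x * v) ^ 2) := by
          rw [← huu, ← hvv]
          ring
      _ ≤ m ^ 2 * (u * H + x * v) ^ 2 := by
          refine mul_le_mul_of_nonneg_left ?_ (by positivity)
          have : 0 ≤ (u * H) * (x * v) := by positivity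
          nlinarith
  have hconst : 9600 * (C1 * (1 + c)) ≤ (100 * (1 + C1) * (1 + c)) ^ 2 := by
    have e1 : C1 ≤ (1 + C1) ^ 2 := by nlinarith
    have e2 : 1 + c ≤ (1 + c) ^ 2 := by nlinarith
    have e3 : C1 * (1 + c) ≤ (1 + C1) ^ 2 * (1 + c) ^ 2 :=
      mul_le_mul e1 e2 (by positivity) (by positivity)
    have e4 : 0 ≤ (1 + C1) ^ 2 * (1 + c) ^ 2 := by positivity
    calc 9600 * (C1 * (1 + c)) ≤ 9600 * ((1 + C1) ^ 2 * (1 + c) ^ 2) := by linarith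
      _ ≤ 10000 * ((1 + C1) ^ 2 * (1 + c) ^ 2) := by linarith
      _ = _ := by ring
  refine (abs_le_of_sq_le_sq' (hsq.trans ?_) (by positivity)).2
  calc 9600 * (C1 * (1 + c) * L ^ 2 * ((H : ℝ) ^ 2 * (J * K * √((J : ℝ) * K)) + H * (J * K * K)))
      ≤ 9600 * (C1 * (1 + c) * L ^ 2 * (m ^ 2 * (u * H + x * v) ^ 2)) := by gcongr
    _ = 9600 * (C1 * (1 + c)) * (L ^ 2 * (m ^ 2 * (u * H + x * v) ^ 2)) := by ring
    _ ≤ (100 * (1 + C1) * (1 + c)) ^ 2 * (L ^ 2 * (m ^ 2 * (u * H + x * v) ^ 2)) := by gcongr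
    _ = _ := by ring

end Pool.Agent.H568.PH.PBL
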