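import Pool.Agent.H568.PH.Stm

/-! Project PH (helper568), task 15628: `S_CUT`, removal of a condition from a bilinear form. -/

set_option autoImplicit false

namespace Pool.Agent.H568.PH.PCUT

open Finset

section

variable {R S : Finset ℕ} {F : ℕ → ℕ → ℝ} {B : ℝ}

/-- the bilinear forms with the weight `c` are bounded by `B` -/
def Bd (R S : Finset ℕ) (F : ℕ → ℕ → ℝ) (B : ℝ) (c : ℕ → ℕ → ℝ) : Prop :=
  ∀ α β : ℕ → ℝ, (∀ r, |α r| ≤ 1) → (∀ s, |β s| ≤ 1) →
    |∑ r ∈ R, ∑ s ∈ S, c r s * (α r * β s * F r s)| ≤ B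

theorem Bd.avg {c : ℕ → ℕ → ℝ} (h : Bd R S F B c) {σ τ : ℕ → ℝ} (hσ : ∀ r, |σ r| ≤ 1)
    (hτ : ∀ s, |τ s| ≤ 1) : Bd R S F B (fun r s => (c r s + σ r * τ s * c r s) / 2) := by
  intro α β hα hβ
  have h1 := h α β hα hβ
  have h2 := h (fun r => α r * σ r) (fun s => β s * τ s)
    (fun r => by rw [abs_mul]; exact mul_le_one₀ (hα r) (abs_nonneg _) (hσ r))
    (fun s => by rw [abs_mul]; exact mul_le_one₀ (hβ s) (abs_nonneg _) (hτ s))
  have e : ∑ r ∈ R, ∑ s ∈ S, (c r s + σ r * τ s * c r s) / 2 * (α r * β s * F r s) =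
      (∑ r ∈ R, ∑ s ∈ S, c r s * (α r * β s * F r s) +
        ∑ r ∈ R, ∑ s ∈ S, c r s * (α r * σ r * (β s * τ s) * F r s)) / 2 := by
    rw [← Finset.sum_add_distrib, Finset.sum_div]
    refine Finset.sum_congr rfl fun r _ => ?_
    rw [← Finset.sum_add_distrib, Finset.sum_div]
    refine Finset.sum_congr rfl fun s _ => ?_
    ring
  rw [e, abs_div, abs_of_pos (show (0 : ℝ) < 2 by norm_num), div_le_iff₀ (by norm_num)]
  have h3 := abs_add_le (∑ r ∈ R, ∑ s ∈ S, c r s * (α r * β s * F r s))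
    (∑ r ∈ R, ∑ s ∈ S, c r s * (α r * σ r * (β s * τ s) * F r s))
  linarith

/-- restriction to pairs in the same class -/
theorem level (h : Bd R S F B (fun _ _ => 1)) (p ρ : ℕ → ℕ) : ∀ M : ℕ,
    Bd R S F B (fun r s => if min (p s) M = min (ρ r) M then 1 else 0) := by
  intro M
  induction M with
  | zero =>
    have e : (fun r s => if min (p s) 0 = min (ρ r) 0 then (1 : ℝ) else 0) = fun _ _ => 1 := by
      funext r s
      rw [if_pos]
      simp
    rw [e]
    exact h
  | succ M ih =>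
    have h1 := ih.avg (σ := fun r => if ρ r = M then -1 else 1) (τ := fun s => if p s = M then -1 else 1)
      (fun r => by split_ifs <;> simp) (fun s => by split_ifs <;> simp)
    have e : (fun r s => if min (p s) (M + 1) = min (ρ r) (M + 1) then (1 : ℝ) else 0) =
        fun r s => ((if min (p s) M = min (ρ r) M then (1 : ℝ) else 0) +
          (if ρ r = M then (-1 : ℝ) else 1) * (if p s = M then (-1 : ℝ) else 1) *
            (if min (p s) M = min (ρ r) M then (1 : ℝ) else 0)) / 2 := by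
      funext r s
      split_ifs <;> first | (exfalso; omega) | norm_num
    rw [e]
    exact h1

/-- the condition `p s < ρ r` -/
theorem cut (h : Bd R S F B (fun _ _ => 1)) : ∀ (n : ℕ) (p ρ : ℕ → ℕ), (∀ s ∈ S, p s < 2 ^ n) →
    (∀ r ∈ R, ρ r < 2 ^ n) → Bd R S F (n * B) (fun r s => if p s < ρ r then 1 else 0) := by
  intro n
  induction n with
  | zero =>
    intro p ρ hp hρ α β _ _
    rw [Finset.sum_eq_zero]
    · simp
    · intro r hr
      refine Finset.sum_eq_zero fun s hs => ?_
      have h1 := hp s hs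
      have h2 := hρ r hr
      rw [pow_zero] at h1 h2
      show (if p s < ρ r then (1 : ℝ) else 0) * (α r * β s * F r s) = 0
      rw [if_neg (by omega), zero_mul]
  | succ n ih =>
    intro p ρ hp hρ α β hα hβ
    have h1 := level h (fun s => p s + 1) ρ (2 ^ (n + 1) + 1)
      (fun r => if ρ r % 2 = 1 then α r else 0) β
      (fun r => by
        split_ifs
        · exact hα r
        · simp) hβ
    have h2 := ih (fun s => p s / 2) (fun r => ρ r / 2)
      (fun s hs => by have := hp s hs; rw [pow_succ] at this; omega)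
      (fun r hr => by have := hρ r hr; rw [pow_succ] at this; omega) α β hα hβ
    have e : ∑ r ∈ R, ∑ s ∈ S, (if p s < ρ r then (1 : ℝ) else 0) * (α r * β s * F r s) =
        ∑ r ∈ R, ∑ s ∈ S, (if min (p s + 1) (2 ^ (n + 1) + 1) = min (ρ r) (2 ^ (n + 1) + 1) then (1 : ℝ)
          else 0) * ((if ρ r % 2 = 1 then α r else 0) * β s * F r s) +
        ∑ r ∈ R, ∑ s ∈ S, (if p s / 2 < ρ r / 2 then (1 : ℝ) else 0) * (α r * β s * F r s) := by
      rw [← Finset.sum_add_distrib]
      refine Finset.sum_congr rfl fun r hr => ?_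
      rw [← Finset.sum_add_distrib]
      refine Finset.sum_congr rfl fun s hs => ?_
      have a1 := hp s hs
      have a2 := hρ r hr
      generalize 2 ^ (n + 1) = N at a1 a2 ⊢
      split_ifs <;> first | (exfalso; omega) | ring
    rw [e]
    refine (abs_add_le _ _).trans ?_
    push_cast
    have h3 : ((n : ℝ) + 1) * B = B + n * B := by ring
    rw [h3]
    exact add_le_add h1 h2

end

theorem t_CUT : Pool.Agent.H568.PH.S_CUT := by
  intro J K F B hK H α β hα hβ t
  have h : Bd (Ioc J (2 * J)) (Ioc K (2 * K)) F B (fun _ _ => 1) := by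
    intro a b ha hb
    simp only [one_mul]
    exact H a b ha hb
  have hB : 0 ≤ B := by
    have h1 := H (fun _ => 0) (fun _ => 0) (fun _ => by simp) (fun _ => by simp)
    exact (abs_nonneg _).trans h1
  have hlt : K < 2 ^ (Nat.log 2 K + 1) := Nat.lt_pow_succ_log_self one_lt_two K
  have h2 := cut h (Nat.log 2 K + 1) (fun s => s - K - 1) (fun r => min (t r - K) K)
    (fun s hs => by
      rw [mem_Ioc] at hs
      show s - K - 1 < _
      omega)
    (fun r _ => lt_of_le_of_lt (min_le_right _ _) hlt) α β hα hβ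
  have e : ∑ r ∈ Ioc J (2 * J), ∑ s ∈ (Ioc K (2 * K)).filter (fun s => s ≤ t r), α r * β s * F r s =
      ∑ r ∈ Ioc J (2 * J), ∑ s ∈ Ioc K (2 * K),
        (if s - K - 1 < min (t r - K) K then (1 : ℝ) else 0) * (α r * β s * F r s) := by
    refine Finset.sum_congr rfl fun r _ => ?_
    rw [Finset.sum_filter]
    refine Finset.sum_congr rfl fun s hs => ?_
    rw [mem_Ioc] at hs
    split_ifs <;> first | (exfalso; omega) | ring
  rw [e]
  refine h2.trans ?_
  have hlog : (Nat.log 2 K : ℝ) * Real.log 2 ≤ Real.log K := by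
    have h3 : 2 ^ Nat.log 2 K ≤ K := Nat.pow_log_le_self 2 (by omega)
    have h4 : ((2 : ℝ) ^ Nat.log 2 K) ≤ K := by exact_mod_cast h3
    have h5 := Real.log_le_log (by positivity) h4
    rwa [Real.log_pow] at h5
  have hl2 : (1 / 2 : ℝ) ≤ Real.log 2 := by
    have := Real.log_two_gt_d9
    linarith
  have hK0 : 0 ≤ Real.log K := Real.log_natCast_nonneg K
  have h6 : (Nat.log 2 K : ℝ) ≤ 2 * Real.log K := by
    have h7 : (0 : ℝ) ≤ Nat.log 2 K := Nat.cast_nonneg _
    nlinarith
  apply mul_le_mul_of_nonneg_right _ hB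
  push_cast
  linarith

end Pool.Agent.H568.PH.PCUT
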