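import Pool.Agent.H568.PH.Stm

/-!
# Project PH, part FE (helper706): numbers near the values of a quadratic polynomial
-/

set_option autoImplicit false

open Finset Filter Topology Pool.Agent.N792 Pool.Agent.H568.PH

namespace Pool.Agent.H568.PH.PFE

theorem t_FE : S_FE := by
  intro a b σ ha hσ
  refine ⟨(40 * b.natAbs ^ 2 + 320) ^ 2, fun x hx C hC1 hC2 N hN1 hN2 δ β0 hδ hβ htri => ?_⟩
  have haR : (1 : ℝ) ≤ a := by exact_mod_cast ha
  obtain ⟨B, hB⟩ : ∃ B : ℝ, B = |(b : ℝ)| := ⟨_, rfl⟩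
  have hB0 : 0 ≤ B := by rw [hB]; exact abs_nonneg _
  have hbB : (b.natAbs : ℝ) = B := by rw [hB, Nat.cast_natAbs, Int.cast_abs]
  have hb1 : -B ≤ (b : ℝ) := by rw [hB]; exact neg_abs_le _
  have hb1' : (b : ℝ) ≤ B := by rw [hB]; exact le_abs_self _
  have hb2 : (b : ℝ) ^ 2 = B ^ 2 := by rw [hB, sq_abs]
  have hxR : (40 * B ^ 2 + 320) ^ 2 ≤ (x : ℝ) := by
    rw [← hbB]; exact_mod_cast hx
  have hR0 : 0 ≤ 40 * B ^ 2 + 320 := by positivity
  have hsx : 40 * B ^ 2 + 320 ≤ (x : ℝ) ^ (1 / 2 : ℝ) := by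
    rw [← Real.sqrt_eq_rpow]
    exact Real.le_sqrt_of_sq_le hxR
  have hCR : 40 * B ^ 2 + 320 ≤ (C : ℝ) := hsx.trans hC1
  have hxB : 320 * (B + 300) ≤ (x : ℝ) := by
    have h1 : B + 300 ≤ 40 * B ^ 2 + 320 := by nlinarith [sq_nonneg (B - 1)]
    have h2 : 320 * (40 * B ^ 2 + 320) ≤ (40 * B ^ 2 + 320) ^ 2 := by
      have h3 : 320 ≤ 40 * B ^ 2 + 320 := by nlinarith [sq_nonneg B]
      nlinarith
    linarith
  have hx0 : (0 : ℝ) < x := by linarith
  have hC0 : (0 : ℝ) < C := by nlinarith [sq_nonneg B]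
  have hCx : (C : ℝ) ≤ x := by exact_mod_cast hC2
  have ha0 : (0 : ℝ) < a := by linarith
  have hδ0 : 0 < δ := by rw [hδ]; positivity
  have hδ1 : δ * (a * x) = C / 40 := by rw [hδ]; field_simp
  have haδ : a * δ ≤ 1 / 40 := by
    have h1 : a * δ * x ≤ 1 / 40 * x := by linarith
    exact le_of_mul_le_mul_right h1 hx0
  have hδ2 : δ ≤ 1 / 40 := by nlinarith
  -- the square root
  obtain ⟨s, hs⟩ : ∃ s : ℝ, s = √((N : ℝ) / a) := ⟨_, rfl⟩
  have hs0 : 0 ≤ s := by rw [hs]; exact Real.sqrt_nonneg _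
  have hs2 : a * s ^ 2 = N := by
    rw [hs, Real.sq_sqrt (by positivity)]
    field_simp
  have hs3 : (x : ℝ) / 3 ≤ s := by
    rw [hs]
    refine Real.le_sqrt_of_sq_le ?_
    rw [le_div_iff₀ ha0]
    nlinarith
  have hs4 : s ≤ (x : ℝ) / 2 := by
    have h1 : s ^ 2 ≤ ((x : ℝ) / 2) ^ 2 := by
      have h2 : a * s ^ 2 ≤ a * ((x : ℝ) / 2) ^ 2 := by rw [hs2]; nlinarith
      exact le_of_mul_le_mul_left h2 ha0
    exact le_of_sq_le_sq h1 (by positivity)
  rw [← hs] at htri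
  obtain ⟨m, hm⟩ : ∃ m : ℤ, m = round (s - β0) := ⟨_, rfl⟩
  obtain ⟨θ, hθ⟩ : ∃ θ : ℝ, θ = s - β0 - m := ⟨_, rfl⟩
  have hθδ : |θ| < δ := by
    unfold tri at htri
    rw [lt_max_iff] at htri
    rcases htri with h | h
    · exact absurd h (lt_irrefl _)
    · rw [← hm, ← hθ] at h
      have h1 : |θ| / δ < 1 := by linarith
      rwa [div_lt_one hδ0] at h1
  obtain ⟨hθ1, hθ2⟩ := abs_lt.1 hθδ
  obtain ⟨t, ht⟩ : ∃ t : ℝ, t = 2 * σ * δ + θ := ⟨_, rfl⟩
  have hσ2 : (σ : ℝ) * σ = 1 := by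
    rcases hσ with h | h <;> rw [h] <;> norm_num
  have hst : s = m + b / (2 * a) + t := by rw [ht, hθ, hβ]; ring
  have ht1 : δ < σ * t ∧ σ * t < 3 * δ := by
    rcases hσ with h | h
    · rw [ht, h]; push_cast; constructor <;> linarith
    · rw [ht, h]; push_cast; constructor <;> linarith
  have ht2 : t ^ 2 ≤ 9 * δ ^ 2 := by
    have h1 : t ^ 2 = (σ * t) ^ 2 := by
      calc t ^ 2 = (σ * σ : ℝ) * t ^ 2 := by rw [hσ2, one_mul]
        _ = (σ * t) ^ 2 := by ring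
    rw [h1]
    nlinarith [ht1.1, ht1.2]
  have hat : a * t ^ 2 ≤ 1 := by
    have h1 : a * t ^ 2 ≤ a * (9 * δ ^ 2) := mul_le_mul_of_nonneg_left ht2 ha0.le
    nlinarith
  have hba : |(b : ℝ) / (2 * a)| ≤ B / 2 := by
    rw [abs_div, ← hB, abs_of_pos (by positivity : (0 : ℝ) < 2 * a)]
    apply div_le_div_of_nonneg_left hB0 (by norm_num)
    linarith
  obtain ⟨hba1, hba2⟩ := abs_le.1 hba
  have htt : -(3 * δ) ≤ t ∧ t ≤ 3 * δ := by
    rcases hσ with h | h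
    · rw [ht, h]; push_cast; constructor <;> linarith
    · rw [ht, h]; push_cast; constructor <;> linarith
  have hm1 : (x : ℝ) / 4 ≤ m := by linarith [htt.1, htt.2]
  have hm2 : (m : ℝ) ≤ x / 2 + B / 2 + 3 / 40 := by linarith [htt.1, htt.2]
  have hm3 : (m : ℝ) ≤ x := by linarith
  -- the constant term
  have hN : (N : ℝ) = a * m ^ 2 + b * m + (b ^ 2 / (4 * a) + (2 * a * m + b) * t + a * t ^ 2) := by
    rw [← hs2, hst]
    field_simp
    ring
  obtain ⟨c', hc'⟩ : ∃ c' : ℤ, c' = N - (a * m ^ 2 + b * m) := ⟨_, rfl⟩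
  have hcR : (c' : ℝ) = b ^ 2 / (4 * a) + (2 * a * m + b) * t + a * t ^ 2 := by
    rw [hc']
    push_cast
    rw [hN]
    ring
  have hb4 : (b : ℝ) ^ 2 / (4 * a) ≤ B ^ 2 / 4 := by
    rw [hb2]
    apply div_le_div_of_nonneg_left (by positivity) (by norm_num)
    linarith
  have hb40 : 0 ≤ (b : ℝ) ^ 2 / (4 * a) := by positivity
  have hat0 : 0 ≤ a * t ^ 2 := by positivity
  have hσc : σ * (c' : ℝ) = σ * (b ^ 2 / (4 * a) + a * t ^ 2) + (2 * a * m + b) * (σ * t) := by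
    rw [hcR]; ring
  have hE : |(σ : ℝ) * (b ^ 2 / (4 * a) + a * t ^ 2)| ≤ B ^ 2 / 4 + 1 := by
    rw [abs_mul]
    have h1 : |(σ : ℝ)| = 1 := by rcases hσ with h | h <;> rw [h] <;> norm_num
    rw [h1, one_mul, abs_of_nonneg (by linarith)]
    linarith
  obtain ⟨hE1, hE2⟩ := abs_le.1 hE
  have hlow : (a : ℝ) * x / 4 ≤ 2 * a * m + b := by
    have h1 : 2 * a * (x / 4 : ℝ) ≤ 2 * a * m := mul_le_mul_of_nonneg_left hm1 (by positivity)
    have h2 : B ≤ a * x / 4 := by nlinarith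
    linarith
  have hup : (2 : ℝ) * a * m + b ≤ 2 * (a * x) := by
    have h1 : 2 * a * (m : ℝ) ≤ 2 * a * (x / 2 + B / 2 + 3 / 40) := mul_le_mul_of_nonneg_left hm2 (by positivity)
    have h2 : a * B + 3 * a / 20 + B ≤ a * x := by nlinarith
    linarith
  have hL : (C : ℝ) / 160 ≤ (2 * a * m + b) * (σ * t) := by
    calc (C : ℝ) / 160 = a * x / 4 * δ := by linarith
      _ ≤ (2 * a * m + b) * δ := mul_le_mul_of_nonneg_right hlow hδ0.le
      _ ≤ (2 * a * m + b) * (σ * t) := by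
          apply mul_le_mul_of_nonneg_left ht1.1.le
          have : 0 ≤ a * (x : ℝ) / 4 := by positivity
          linarith
  have hU : (2 * a * m + b) * (σ * t) ≤ 3 * C / 20 := by
    calc (2 * a * m + b) * (σ * t) ≤ (2 * a * m + b) * (3 * δ) := by
          apply mul_le_mul_of_nonneg_left ht1.2.le
          have : 0 ≤ a * (x : ℝ) / 4 := by positivity
          linarith
      _ ≤ 2 * (a * x) * (3 * δ) := mul_le_mul_of_nonneg_right hup (by positivity)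
      _ = 3 * C / 20 := by linarith
  have hc1 : (1 : ℝ) ≤ σ * (c' : ℝ) := by
    rw [hσc]
    nlinarith
  have hc2 : σ * (c' : ℝ) ≤ C := by
    rw [hσc]
    nlinarith
  have hc1' : 1 ≤ σ * c' := by exact_mod_cast hc1
  have hc2' : σ * c' ≤ C := by exact_mod_cast hc2
  have hm1' : 1 ≤ m := by
    have : (1 : ℝ) ≤ m := by linarith
    exact_mod_cast this
  have hm3' : m ≤ x := by exact_mod_cast hm3
  have hσ3 : σ * σ = 1 := by exact_mod_cast hσ2
  refine ⟨m.toNat, ?_, (σ * c').toNat, ?_, ?_⟩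
  · rw [mem_Icc]; constructor <;> omega
  · rw [mem_Icc]; constructor <;> omega
  · rw [Int.toNat_of_nonneg (by linarith), Int.toNat_of_nonneg (by linarith), ← mul_assoc, hσ3, one_mul, hc']
    ring

end Pool.Agent.H568.PH.PFE
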