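import Pool.Agent.H568.PH.Stm
import Pool.Agent.H568.PH.P.PH4core

open Finset Filter Topology Pool.Agent.N792 Pool.Agent.H568.PH

namespace Pool.Agent.H568.PH.PPH4

theorem t_PH4 : S_PH4 := ⟨Real.exp 60, Real.exp_pos 60, fun X => ph4_core X⟩

end Pool.Agent.H568.PH.PPH4
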