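import Pool.Agent.H568.PH.Stm

/-!
# PSI: `ψ(2N) - ψ(N) ≥ c N`
-/

set_option autoImplicit false

namespace Pool.Agent.H568.PH.PPSI

open Finset Filter Topology
open ArithmeticFunction (vonMangoldt)

theorem log_fact (M : ℕ) : ∀ n : ℕ, n ≤ M →
    ∑ d ∈ range (M + 1), vonMangoldt d * ((n / d : ℕ) : ℝ) = Real.log (n.factorial : ℝ) := by
  intro n
  induction n with
  | zero => intro _; simp
  | succ n ih =>
    intro hn
    have h1 : ∀ d ∈ range (M + 1), vonMangoldt d * (((n + 1) / d : ℕ) : ℝ) =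
        vonMangoldt d * ((n / d : ℕ) : ℝ) + if d ∣ n + 1 then vonMangoldt d else 0 := by
      intro d _
      rw [Nat.succ_div]
      split_ifs with h
      · push_cast
        ring
      · push_cast
        ring
    have h2 : (range (M + 1)).filter (fun d => d ∣ n + 1) = (n + 1).divisors := by
      ext d
      rw [mem_filter, mem_range, Nat.mem_divisors]
      constructor
      · rintro ⟨-, h⟩
        exact ⟨h, by omega⟩
      · rintro ⟨h, -⟩
        have := Nat.le_of_dvd (by omega) h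
        exact ⟨by omega, h⟩
    rw [sum_congr rfl h1, sum_add_distrib, ih (by omega), ← sum_filter, h2,
      ArithmeticFunction.vonMangoldt_sum, Nat.factorial_succ]
    push_cast
    rw [Real.log_mul (by positivity) (by positivity)]
    ring

theorem div_le (N d : ℕ) (hd : d ≤ 2 * N) :
    (((2 * N / d : ℕ) : ℝ)) - 2 * ((N / d : ℕ) : ℝ) ≤
      (if d ∈ Ioc N (2 * N) then 1 else 0) + (if d ∈ Ioc 0 (2 * N / 3) then 1 else 0) := by
  rcases Nat.eq_zero_or_pos d with h0 | h0
  · subst h0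
    simp
  have h1 : 2 * N / d ≤ 2 * (N / d) + 1 := by
    have h2 : N < d * (N / d + 1) := Nat.lt_mul_div_succ N h0
    have h3 : 2 * N / d < 2 * (N / d) + 2 := by
      rw [Nat.div_lt_iff_lt_mul h0]
      nlinarith
    omega
  have h1' : ((2 * N / d : ℕ) : ℝ) ≤ 2 * ((N / d : ℕ) : ℝ) + 1 := by exact_mod_cast h1
  by_cases hA : N < d
  · rw [if_pos (mem_Ioc.2 ⟨hA, hd⟩)]
    have : (0 : ℝ) ≤ (if d ∈ Ioc 0 (2 * N / 3) then 1 else 0) := by split_ifs <;> norm_num
    linarith
  · by_cases hB : d ≤ 2 * N / 3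
    · rw [if_pos (mem_Ioc.2 ⟨h0, hB⟩)]
      have : (0 : ℝ) ≤ (if d ∈ Ioc N (2 * N) then 1 else 0) := by split_ifs <;> norm_num
      linarith
    · have h4 : 2 * N / d = 2 := by
        rw [Nat.div_eq_iff (by omega)]
        omega
      have h5 : N / d = 1 := by
        rw [Nat.div_eq_iff (by omega)]
        omega
      rw [h4, h5]
      have e1 : (0 : ℝ) ≤ (if d ∈ Ioc 0 (2 * N / 3) then 1 else 0) := by split_ifs <;> norm_num
      have e2 : (0 : ℝ) ≤ (if d ∈ Ioc N (2 * N) then 1 else 0) := by split_ifs <;> norm_num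
      push_cast
      linarith

theorem log_central (N : ℕ) : Real.log ((Nat.centralBinom N : ℕ) : ℝ) ≤
    ∑ d ∈ Ioc N (2 * N), vonMangoldt d + ∑ d ∈ Ioc 0 (2 * N / 3), vonMangoldt d := by
  have h1 : Real.log ((Nat.centralBinom N : ℕ) : ℝ) =
      Real.log ((2 * N).factorial : ℝ) - 2 * Real.log (N.factorial : ℝ) := by
    have h2 := Nat.choose_mul_factorial_mul_factorial (n := 2 * N) (k := N) (by omega)
    rw [show 2 * N - N = N by omega, ← Nat.centralBinom_eq_two_mul_choose] at h2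
    rw [← h2]
    have h3 : (Nat.centralBinom N : ℝ) ≠ 0 := by
      exact_mod_cast (Nat.centralBinom_pos N).ne'
    have h4 : (N.factorial : ℝ) ≠ 0 := by exact_mod_cast (Nat.factorial_pos N).ne'
    push_cast
    rw [Real.log_mul (mul_ne_zero h3 h4) h4, Real.log_mul h3 h4]
    ring
  rw [h1, ← log_fact (2 * N) (2 * N) le_rfl, ← log_fact (2 * N) N (by omega), mul_sum,
    ← sum_sub_distrib]
  calc ∑ d ∈ range (2 * N + 1), (vonMangoldt d * ((2 * N / d : ℕ) : ℝ) -
        2 * (vonMangoldt d * ((N / d : ℕ) : ℝ))) ≤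
      ∑ d ∈ range (2 * N + 1), ((if d ∈ Ioc N (2 * N) then vonMangoldt d else 0) +
        (if d ∈ Ioc 0 (2 * N / 3) then vonMangoldt d else 0)) := by
        refine sum_le_sum fun d hd => ?_
        have h5 := div_le N d (by rw [mem_range] at hd; omega)
        have h6 := mul_le_mul_of_nonneg_left h5
          (ArithmeticFunction.vonMangoldt_nonneg (n := d))
        calc vonMangoldt d * ((2 * N / d : ℕ) : ℝ) - 2 * (vonMangoldt d * ((N / d : ℕ) : ℝ)) =
              vonMangoldt d * (((2 * N / d : ℕ) : ℝ) - 2 * ((N / d : ℕ) : ℝ)) := by ring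
          _ ≤ _ := h6
          _ = _ := by split_ifs <;> ring
    _ = _ := by
        rw [sum_add_distrib, ← sum_filter, ← sum_filter]
        congr 1
        · congr 1
          ext d
          rw [mem_filter, mem_range, mem_Ioc]
          omega
        · congr 1
          ext d
          rw [mem_filter, mem_range, mem_Ioc]
          omega

theorem psi_dyadic : ∃ c5 : ℝ, 0 < c5 ∧ ∃ N0 : ℕ, ∀ N : ℕ, N0 ≤ N →
    c5 * N ≤ ∑ n ∈ Ioc N (2 * N), vonMangoldt n := by
  refine ⟨1 / 5, by norm_num, 120 ^ 4, fun N hN => ?_⟩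
  have hN1 : (120 : ℝ) ^ 4 ≤ N := by exact_mod_cast hN
  have hN0 : (0 : ℝ) < N := by linarith [show (0 : ℝ) < 120 ^ 4 by norm_num]
  have h1 := log_central N
  have h2 : (N : ℝ) * Real.log 4 - Real.log (2 * N) ≤
      Real.log ((Nat.centralBinom N : ℕ) : ℝ) := by
    have h3 := Nat.four_pow_le_two_mul_self_mul_centralBinom N (by
      have : 0 < 120 ^ 4 := by norm_num
      omega)
    have h4 : (4 : ℝ) ^ N ≤ 2 * N * (Nat.centralBinom N : ℝ) := by exact_mod_cast h3
    have h5 := Real.log_le_log (by positivity) h4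
    have h6 : (Nat.centralBinom N : ℝ) ≠ 0 := by
      exact_mod_cast (Nat.centralBinom_pos N).ne'
    rw [Real.log_pow, Real.log_mul (by positivity) h6] at h5
    linarith
  -- the upper bound for psi
  have h7 : ∑ d ∈ Ioc 0 (2 * N / 3), vonMangoldt d ≤
      Real.log 4 * (2 * N / 3) + 2 * √(2 * N) * Real.log (2 * N) := by
    have hle : ((2 * N / 3 : ℕ) : ℝ) ≤ 2 * N / 3 := by
      have := @Nat.cast_div_le ℝ _ _ _ (2 * N) 3
      push_cast at this
      exact this
    have hge : (1 : ℝ) ≤ ((2 * N / 3 : ℕ) : ℝ) := by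
      have : 1 ≤ 2 * N / 3 := by
        have : 120 ^ 4 ≤ N := hN
        omega
      exact_mod_cast this
    have h8 := Chebyshev.psi_le hge
    have h9 : Chebyshev.psi ((2 * N / 3 : ℕ) : ℝ) = ∑ d ∈ Ioc 0 (2 * N / 3), vonMangoldt d := by
      unfold Chebyshev.psi
      rw [Nat.floor_natCast]
    rw [h9] at h8
    refine h8.trans ?_
    have hl4 : 0 ≤ Real.log 4 := Real.log_nonneg (by norm_num)
    have hle2 : ((2 * N / 3 : ℕ) : ℝ) ≤ 2 * N := by linarith
    have e1 : Real.log 4 * ((2 * N / 3 : ℕ) : ℝ) ≤ Real.log 4 * (2 * N / 3) :=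
      mul_le_mul_of_nonneg_left hle hl4
    have e2 : √((2 * N / 3 : ℕ) : ℝ) ≤ √(2 * N) := Real.sqrt_le_sqrt hle2
    have e3 : Real.log ((2 * N / 3 : ℕ) : ℝ) ≤ Real.log (2 * N) :=
      Real.log_le_log (by linarith) hle2
    have e4 : 0 ≤ Real.log ((2 * N / 3 : ℕ) : ℝ) := Real.log_nonneg hge
    have e5 : 2 * √((2 * N / 3 : ℕ) : ℝ) * Real.log ((2 * N / 3 : ℕ) : ℝ) ≤
        2 * √(2 * N) * Real.log (2 * N) := by
      gcongr
    linarith
  -- the error terms
  obtain ⟨u, hu⟩ : ∃ u : ℝ, u = √(√(2 * (N : ℝ))) := ⟨_, rfl⟩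
  have hu0 : 0 ≤ u := by rw [hu]; exact Real.sqrt_nonneg _
  have hu2 : u ^ 2 = √(2 * (N : ℝ)) := by rw [hu]; exact Real.sq_sqrt (Real.sqrt_nonneg _)
  have hu4 : u ^ 4 = 2 * N := by
    rw [show (4 : ℕ) = 2 * 2 from rfl, pow_mul, hu2]
    exact Real.sq_sqrt (by positivity)
  have hu120 : 120 ≤ u := by
    by_contra hcon
    have : u ^ 4 < 120 ^ 4 := pow_lt_pow_left₀ (not_le.1 hcon) hu0 (by norm_num)
    linarith
  have hlog : Real.log (2 * N) ≤ 4 * u := by
    rw [← hu4, Real.log_pow]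
    have := Real.log_le_sub_one_of_pos (x := u) (by linarith)
    push_cast
    linarith
  have hlog0 : 0 ≤ Real.log (2 * (N : ℝ)) := Real.log_nonneg (by linarith [show (1 : ℝ) ≤ 120 ^ 4 by norm_num])
  have h10 : 2 * √(2 * (N : ℝ)) * Real.log (2 * N) ≤ 8 * u ^ 3 := by
    rw [← hu2]
    calc 2 * u ^ 2 * Real.log (2 * N) ≤ 2 * u ^ 2 * (4 * u) :=
          mul_le_mul_of_nonneg_left hlog (by positivity)
      _ = 8 * u ^ 3 := by ring
  have h11 : Real.log (2 * (N : ℝ)) ≤ 4 * u ^ 3 := by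
    refine hlog.trans ?_
    have : u ≤ u ^ 3 := le_self_pow₀ (by linarith) (by norm_num)
    linarith
  have h12 : 12 * u ^ 3 ≤ 1 / 5 * N := by
    have : (N : ℝ) = u ^ 4 / 2 := by rw [hu4]; ring
    rw [this]
    have h13 : 0 ≤ u ^ 3 := by positivity
    nlinarith
  have hl4 : (1.38 : ℝ) ≤ Real.log 4 := by
    have : Real.log 4 = 2 * Real.log 2 := by
      rw [show (4 : ℝ) = 2 ^ 2 by norm_num, Real.log_pow]
      norm_num
    rw [this]
    have := Real.log_two_gt_d9
    linarith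
  have h14 : (1.38 : ℝ) / 3 * N ≤ Real.log 4 * N / 3 := by
    nlinarith
  nlinarith

theorem t_PSI : Pool.Agent.H568.PH.S_PSI := psi_dyadic

end Pool.Agent.H568.PH.PPSI
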