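import Pool.Agent.H568.PH.Stm

/-!
Project PH, task Q5: sums over the triangle function from bounds for blocks of frequencies.
-/

set_option autoImplicit false

open Finset Filter Topology Pool.Agent.N792 Pool.Agent.H568.PH
open Pool.Agent.H469R2.NK (e)

namespace Pool.Agent.H568.PH.PQ5

lemma tau_step {δ : ℝ} (hδ : 0 < δ) (i : ℕ) :
    qdTau δ i * √((2 : ℝ) ^ i) ≤ 25 * √δ * (√δ * √((2 : ℝ) ^ (i + 1)) / (1 + √δ * √((2 : ℝ) ^ (i + 1))) -
      √δ * √((2 : ℝ) ^ i) / (1 + √δ * √((2 : ℝ) ^ i))) := by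
  obtain ⟨d, hd⟩ : ∃ d : ℝ, d = √δ := ⟨_, rfl⟩
  obtain ⟨t, ht⟩ : ∃ t : ℝ, t = √((2 : ℝ) ^ i) := ⟨_, rfl⟩
  obtain ⟨r, hr⟩ : ∃ r : ℝ, r = √(2 : ℝ) := ⟨_, rfl⟩
  have hd0 : 0 < d := by rw [hd]; exact Real.sqrt_pos.mpr hδ
  have ht0 : 0 < t := by rw [ht]; exact Real.sqrt_pos.mpr (by positivity)
  have hd2 : δ = d ^ 2 := by rw [hd, Real.sq_sqrt hδ.le]
  have ht2 : (2 : ℝ) ^ i = t ^ 2 := by rw [ht, Real.sq_sqrt (by positivity)]
  have hr2 : r ^ 2 = 2 := by rw [hr, Real.sq_sqrt (by norm_num)]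
  have hr0 : 0 < r := by rw [hr]; exact Real.sqrt_pos.mpr (by norm_num)
  have hr1 : (141 / 100 : ℝ) ≤ r := by nlinarith
  have hr3 : r ≤ 142 / 100 := by nlinarith
  have e1 : √((2 : ℝ) ^ (i + 1)) = r * t := by
    rw [pow_succ', Real.sqrt_mul (by norm_num), ← hr, ← ht]
  obtain ⟨y, hy⟩ : ∃ y : ℝ, y = d * t := ⟨_, rfl⟩
  have hy0 : 0 < y := by rw [hy]; positivity
  have h1 : qdTau δ i * t ≤ d * (2 * y) := by
    calc qdTau δ i * t ≤ (2 * δ) * t := by
          apply mul_le_mul_of_nonneg_right (min_le_left _ _) ht0.le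
      _ = d * (2 * y) := by rw [hy, hd2]; ring
  have h2 : qdTau δ i * t ≤ d * (2 / (9 * y ^ 3)) := by
    calc qdTau δ i * t ≤ (2 / (9 * ((2 : ℝ) ^ i) ^ 2 * δ)) * t := by
          apply mul_le_mul_of_nonneg_right (min_le_right _ _) ht0.le
      _ = d * (2 / (9 * y ^ 3)) := by
          rw [hy, hd2, ht2]
          field_simp
  rw [e1, ← ht, ← hd]
  have e2 : d * (r * t) = r * y := by rw [hy]; ring
  rw [e2, ← hy]
  have e3 : r * y / (1 + r * y) - y / (1 + y) = (r - 1) * y / ((1 + r * y) * (1 + y)) := by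
    rw [div_sub_div _ _ (by positivity) (by positivity)]
    congr 1; ring
  rw [e3]
  have e4 : 25 * d * ((r - 1) * y / ((1 + r * y) * (1 + y))) =
      d * (25 * ((r - 1) * y / ((1 + r * y) * (1 + y)))) := by ring
  rw [e4]
  rcases le_total y (1 / 2) with h | h
  · refine h1.trans (mul_le_mul_of_nonneg_left ?_ hd0.le)
    rw [mul_div_assoc', le_div_iff₀ (by positivity)]
    have k1 : 1 + r * y ≤ 171 / 100 := by nlinarith
    have k2 : 1 + y ≤ 3 / 2 := by linarith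
    have k3 : (1 + r * y) * (1 + y) ≤ 171 / 100 * (3 / 2) :=
      mul_le_mul k1 k2 (by positivity) (by norm_num)
    have k4 : 2 * ((1 + r * y) * (1 + y)) ≤ 25 * (r - 1) := by linarith
    calc 2 * y * ((1 + r * y) * (1 + y)) = y * (2 * ((1 + r * y) * (1 + y))) := by ring
      _ ≤ y * (25 * (r - 1)) := mul_le_mul_of_nonneg_left k4 hy0.le
      _ = 25 * ((r - 1) * y) := by ring
  · refine h2.trans (mul_le_mul_of_nonneg_left ?_ hd0.le)
    rw [mul_div_assoc', div_le_div_iff₀ (by positivity) (by positivity)]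
    have k1 : 1 + r * y ≤ 342 / 100 * y := by nlinarith
    have k2 : 1 + y ≤ 3 * y := by linarith
    have k3 : (1 + r * y) * (1 + y) ≤ 342 / 100 * y * (3 * y) :=
      mul_le_mul k1 k2 (by positivity) (by positivity)
    have k5 : 1 / 4 ≤ y ^ 2 := by nlinarith
    have k6 : 0 < y ^ 2 := by positivity
    have k7 : 1 / 4 * y ^ 2 ≤ y ^ 2 * y ^ 2 := mul_le_mul_of_nonneg_right k5 k6.le
    have k8 : (41 / 100) * (y ^ 2 * y ^ 2) ≤ (r - 1) * (y ^ 2 * y ^ 2) :=
      mul_le_mul_of_nonneg_right (by linarith) (by positivity)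
    have k9 : 25 * ((r - 1) * y) * (9 * y ^ 3) = 225 * ((r - 1) * (y ^ 2 * y ^ 2)) := by ring
    rw [k9]
    nlinarith

lemma tau_sum {δ : ℝ} (hδ : 0 < δ) (J : ℕ) :
    ∑ i ∈ range J, qdTau δ i * √((2 : ℝ) ^ i) ≤ 25 * √δ := by
  have hd : 0 ≤ √δ := Real.sqrt_nonneg _
  have key : ∑ i ∈ range J, qdTau δ i * √((2 : ℝ) ^ i) ≤
      25 * √δ * (√δ * √((2 : ℝ) ^ J) / (1 + √δ * √((2 : ℝ) ^ J)) -
        √δ * √((2 : ℝ) ^ 0) / (1 + √δ * √((2 : ℝ) ^ 0))) := by
    induction J with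
    | zero => simp
    | succ J ih =>
      rw [Finset.sum_range_succ]
      have := tau_step hδ J
      linarith
  refine key.trans ?_
  have h1 : √δ * √((2 : ℝ) ^ J) / (1 + √δ * √((2 : ℝ) ^ J)) ≤ 1 := by
    rw [div_le_one (by positivity)]; linarith
  have h2 : 0 ≤ √δ * √((2 : ℝ) ^ 0) / (1 + √δ * √((2 : ℝ) ^ 0)) := by positivity
  calc _ ≤ 25 * √δ * 1 := by
        apply mul_le_mul_of_nonneg_left _ (by positivity)
        linarith
    _ = _ := by ring

theorem t_Q5 : S_Q5 := by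
  intro s w θ δ A B D K hδ hδ2 hK1 hA hB hD hB2 hB3
  have hS : HasSum (fun n : ℕ => triC δ n * ∑ i ∈ s, w i * Real.cos (2 * Real.pi * n * θ i))
      (∑ i ∈ s, w i * tri δ (θ i) - δ * ∑ i ∈ s, w i) := by
    have h1 : HasSum (fun n : ℕ => ∑ i ∈ s, w i * (triC δ n * Real.cos (2 * Real.pi * n * θ i)))
        (∑ i ∈ s, w i * (tri δ (θ i) - δ)) :=
      hasSum_sum fun i _ => (tri_hasSum hδ hδ2 (θ i)).mul_left (w i)
    have e1 : (∑ i ∈ s, w i * (tri δ (θ i) - δ)) = ∑ i ∈ s, w i * tri δ (θ i) - δ * ∑ i ∈ s, w i := by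
      simp only [mul_sub, Finset.sum_sub_distrib, Finset.mul_sum]
      congr 1
      exact Finset.sum_congr rfl fun i _ => mul_comm _ _
    rw [e1] at h1
    convert h1 using 2 with n
    rw [Finset.mul_sum]
    exact Finset.sum_congr rfl fun i _ => by ring
  obtain ⟨T, hT⟩ : ∃ T : ℕ → ℂ, T = fun n : ℕ => ∑ i ∈ s, (w i : ℂ) * e (n * θ i) := ⟨_, rfl⟩
  have hre : ∀ n : ℕ, (∑ i ∈ s, w i * Real.cos (2 * Real.pi * n * θ i)) = (T n).re := by
    intro n
    rw [hT]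
    simp only
    rw [Complex.re_sum]
    refine Finset.sum_congr rfl fun i _ => ?_
    rw [Complex.re_ofReal_mul]
    congr 1
    unfold e
    rw [Complex.exp_ofReal_mul_I_re]
    congr 1
    ring
  simp only [hre] at hS
  have hT2 : ∀ (H : ℕ) (ω : ℕ → ℂ), 1 ≤ H → H ≤ K → (∀ h, ‖ω h‖ ≤ 1) →
      ‖∑ h ∈ Ico H (2 * H), ω h * T h‖ ≤ A * H + B * √(H : ℝ) := by
    intro H ω h1 h2 h3; rw [hT]; exact hB2 H ω h1 h2 h3
  have hT3 : ∀ h : ℕ, ‖T h‖ ≤ D := by
    intro h; rw [hT]; exact hB3 h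
  have hK0 : (0 : ℝ) < K := by exact_mod_cast hK1
  obtain ⟨I1, hI1a, hI1b⟩ : ∃ I1 : ℕ, K < 2 ^ (I1 + 1) ∧ 2 ^ I1 ≤ K := by
    exact ⟨Nat.log 2 K, Nat.lt_pow_succ_log_self (by norm_num) K, Nat.pow_log_le_self 2 (by omega)⟩
  have hI01 : 0 ≤ I1 + 1 := Nat.zero_le _
  -- part two
  have hP2 : |∑ h ∈ Ico (2 ^ 0) (2 ^ (I1 + 1)), triC δ h * (T h).re| ≤
      5 * A + 25 * (B * √δ) := by
    rw [qd_dyadic _ _ _ hI01]
    have hblock : ∀ i ∈ Ico 0 (I1 + 1), |∑ h ∈ Ico (2 ^ i) (2 * 2 ^ i), triC δ h * (T h).re| ≤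
        A * (qdTau δ i * 2 ^ i) + B * (qdTau δ i * √((2 : ℝ) ^ i)) := by
      intro i hi
      rw [Finset.mem_Ico] at hi
      have hτ := qdTau_pos hδ i
      have hb1 : 1 ≤ 2 ^ i := Nat.one_le_two_pow
      have hb2 : 2 ^ i ≤ K := (Nat.pow_le_pow_right (by norm_num) (by omega)).trans hI1b
      have h1 := hT2 (2 ^ i) (fun h => if 2 ^ i ≤ h then ((triC δ h / qdTau δ i : ℝ) : ℂ) else 0)
        hb1 hb2 (by
          intro h
          split_ifs with hh
          · rw [Complex.norm_real, Real.norm_eq_abs, abs_div, abs_of_nonneg (triC_nonneg hδ h),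
              abs_of_pos hτ, div_le_one hτ]
            unfold qdTau
            apply le_min (triC_le_one hδ h)
            have hpos : 0 < 2 ^ i := by positivity
            have hh0 : h ≠ 0 := by omega
            refine (triC_le_two hδ h hh0).trans ?_
            have hh' : (2 : ℝ) ^ i ≤ h := by exact_mod_cast hh
            apply div_le_div_of_nonneg_left (by norm_num) (by positivity)
            gcongr
          · simp)
      have h2 : ∑ h ∈ Ico (2 ^ i) (2 * 2 ^ i), triC δ h * (T h).re =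
          (qdTau δ i * ∑ h ∈ Ico (2 ^ i) (2 * 2 ^ i),
            ((if 2 ^ i ≤ h then ((triC δ h / qdTau δ i : ℝ) : ℂ) else 0) * T h)).re := by
        rw [Complex.re_ofReal_mul, Complex.re_sum, Finset.mul_sum]
        refine Finset.sum_congr rfl fun h hh => ?_
        rw [Finset.mem_Ico] at hh
        rw [if_pos hh.1, Complex.re_ofReal_mul]
        field_simp
      rw [h2]
      refine (Complex.abs_re_le_norm _).trans ?_
      rw [norm_mul, Complex.norm_real, Real.norm_eq_abs, abs_of_pos hτ]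
      calc qdTau δ i * ‖∑ h ∈ Ico (2 ^ i) (2 * 2 ^ i),
            ((if 2 ^ i ≤ h then ((triC δ h / qdTau δ i : ℝ) : ℂ) else 0) * T h)‖
          ≤ qdTau δ i * (A * ((2 ^ i : ℕ) : ℝ) + B * √((2 ^ i : ℕ) : ℝ)) :=
            mul_le_mul_of_nonneg_left h1 hτ.le
        _ = _ := by push_cast; ring
    calc |∑ i ∈ Ico 0 (I1 + 1), ∑ h ∈ Ico (2 ^ i) (2 * 2 ^ i), triC δ h * (T h).re|
        ≤ ∑ i ∈ Ico 0 (I1 + 1), |∑ h ∈ Ico (2 ^ i) (2 * 2 ^ i), triC δ h * (T h).re| :=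
          Finset.abs_sum_le_sum_abs _ _
      _ ≤ ∑ i ∈ Ico 0 (I1 + 1), (A * (qdTau δ i * 2 ^ i) + B * (qdTau δ i * √((2 : ℝ) ^ i))) :=
          Finset.sum_le_sum hblock
      _ = A * ∑ i ∈ Ico 0 (I1 + 1), qdTau δ i * 2 ^ i +
          B * ∑ i ∈ Ico 0 (I1 + 1), qdTau δ i * √((2 : ℝ) ^ i) := by
          rw [Finset.sum_add_distrib, Finset.mul_sum, Finset.mul_sum]
      _ ≤ A * 5 + B * (25 * √δ) := by
          apply add_le_add
          · exact mul_le_mul_of_nonneg_left (qdTau_sum hδ _ _ hI01) hA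
          · refine mul_le_mul_of_nonneg_left ?_ hB
            rw [← Finset.range_eq_Ico]
            exact tau_sum hδ _
      _ = 5 * A + 25 * (B * √δ) := by ring
  -- part three
  have hP3 : ∀ N : ℕ, 2 ^ (I1 + 1) ≤ N → ∑ h ∈ Ico (2 ^ (I1 + 1)) N, |triC δ h * (T h).re| ≤
      D / (δ * K) := by
    intro N hN
    have h1 : ∀ h ∈ Ico (2 ^ (I1 + 1)) N, |triC δ h * (T h).re| ≤
        (2 / (9 * δ) * D) * (1 / (h : ℝ) ^ 2) := by
      intro h hh
      rw [Finset.mem_Ico] at hh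
      have hpos : 0 < 2 ^ (I1 + 1) := by positivity
      have hh0 : h ≠ 0 := by omega
      have hh1 : (0 : ℝ) < h := by positivity
      rw [abs_mul, abs_of_nonneg (triC_nonneg hδ h)]
      have a1 := (Complex.abs_re_le_norm (T h)).trans (hT3 h)
      calc triC δ h * |(T h).re| ≤ (2 / (9 * (h : ℝ) ^ 2 * δ)) * D :=
            mul_le_mul (triC_le_two hδ h hh0) a1 (abs_nonneg _) (by positivity)
        _ = _ := by field_simp
    calc ∑ h ∈ Ico (2 ^ (I1 + 1)) N, |triC δ h * (T h).re|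
        ≤ ∑ h ∈ Ico (2 ^ (I1 + 1)) N, (2 / (9 * δ) * D) * (1 / (h : ℝ) ^ 2) := Finset.sum_le_sum h1
      _ = (2 / (9 * δ) * D) * ∑ h ∈ Ico (2 ^ (I1 + 1)) N, 1 / (h : ℝ) ^ 2 := by rw [Finset.mul_sum]
      _ ≤ (2 / (9 * δ) * D) * ∑ h ∈ Ico (K + 1) N, 1 / (h : ℝ) ^ 2 := by
          apply mul_le_mul_of_nonneg_left _ (by positivity)
          apply Finset.sum_le_sum_of_subset_of_nonneg
          · exact Finset.Ico_subset_Ico_left (by omega)
          · intro i _ _; positivity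
      _ ≤ (2 / (9 * δ) * D) * (1 / (K : ℝ)) := by
          apply mul_le_mul_of_nonneg_left _ (by positivity)
          have h2 := qd_tail K N hK1 (by omega)
          have h3 : 0 ≤ 1 / ((N : ℝ) - 1) := by
            apply div_nonneg (by norm_num)
            have : (1 : ℝ) ≤ N := by
              have : 1 ≤ N := by omega
              exact_mod_cast this
            linarith
          linarith
      _ = (2 / 9) * (D / (δ * K)) := by field_simp
      _ ≤ D / (δ * K) := by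
          have : 0 ≤ D / (δ * K) := by positivity
          linarith
  refine le_of_tendsto (hS.tendsto_sum_nat.abs) ?_
  filter_upwards [eventually_ge_atTop (2 ^ (I1 + 1))] with N hN
  have hsplit : ∑ h ∈ range N, triC δ h * (T h).re =
      ∑ h ∈ Ico (2 ^ 0) (2 ^ (I1 + 1)), triC δ h * (T h).re +
      ∑ h ∈ Ico (2 ^ (I1 + 1)) N, triC δ h * (T h).re := by
    have b1 : 2 ^ 0 ≤ 2 ^ (I1 + 1) := Nat.pow_le_pow_right (by norm_num) hI01
    rw [Finset.sum_Ico_consecutive _ b1 hN, Finset.range_eq_Ico,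
      ← Finset.sum_Ico_consecutive _ (Nat.zero_le (2 ^ 0)) (b1.trans hN)]
    have : ∑ h ∈ Ico 0 (2 ^ 0), triC δ h * (T h).re = 0 := by
      rw [pow_zero, ← Finset.range_eq_Ico, Finset.sum_range_one]
      simp [triC]
    rw [this, zero_add]
  rw [hsplit]
  have q3 := (Finset.abs_sum_le_sum_abs (fun h => triC δ h * (T h).re) (Ico (2 ^ (I1 + 1)) N)).trans
    (hP3 N hN)
  have p1 : 0 ≤ B * √δ := by positivity
  have p4 : 0 ≤ D / (δ * K) := by positivity
  refine (abs_add_le (∑ h ∈ Ico (2 ^ 0) (2 ^ (I1 + 1)), triC δ h * (T h).re)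
    (∑ h ∈ Ico (2 ^ (I1 + 1)) N, triC δ h * (T h).re)).trans ((add_le_add hP2 q3).trans ?_)
  linarith

end Pool.Agent.H568.PH.PQ5
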