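import Mathlib
import Pool.Agent.H568.PH.Stm
import Pool.Graph.R_seed8.Helper112.PairSieve

/-! The second moment of the number of prime values a n^2 + b n + c over c (task SM of project PH). -/

set_option autoImplicit false

namespace Pool.Agent.H568.PH.PSM

open Finset

/-- fourth power of `u / φ(u)` -/
noncomputable def G (u : ℕ) : ℝ := ((u : ℝ) / (Nat.totient u : ℝ)) ^ 4

theorem G_nonneg (u : ℕ) : 0 ≤ G u := by unfold G; positivity

theorem ratio (u v : ℕ) (hu : 0 < u) (hv : 0 < v) :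
    (((u * v : ℕ) : ℝ) / ((Nat.totient (u * v) : ℕ) : ℝ)) ^ 2 ≤ G u + G v := by
  unfold G
  have h1 : 0 < (Nat.totient u : ℝ) := by exact_mod_cast Nat.totient_pos.2 hu
  have h2 : 0 < (Nat.totient v : ℝ) := by exact_mod_cast Nat.totient_pos.2 hv
  have h3 : (Nat.totient u : ℝ) * Nat.totient v ≤ (Nat.totient (u * v) : ℝ) := by
    exact_mod_cast Nat.totient_super_multiplicative u v
  have h4 : ((u * v : ℕ) : ℝ) / ((Nat.totient (u * v) : ℕ) : ℝ) ≤
      ((u : ℝ) / Nat.totient u) * ((v : ℝ) / Nat.totient v) := by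
    rw [div_mul_div_comm]
    push_cast
    gcongr
  have h5 : 0 ≤ ((u * v : ℕ) : ℝ) / ((Nat.totient (u * v) : ℕ) : ℝ) := by positivity
  have h6 := pow_le_pow_left₀ h5 h4 2
  refine h6.trans ?_
  have h7 : ∀ A B : ℝ, (A * B) ^ 2 ≤ A ^ 4 + B ^ 4 := by
    intro A B
    nlinarith [sq_nonneg (A ^ 2 - B ^ 2), sq_nonneg (A ^ 2), sq_nonneg (B ^ 2)]
  exact h7 _ _

theorem sum_inj_le (s T : Finset ℕ) (f : ℕ → ℕ) (hf : ∀ n ∈ s, f n ∈ T)
    (hinj : Set.InjOn f s) : ∑ n ∈ s, G (f n) ≤ ∑ u ∈ T, G u := by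
  rw [← Finset.sum_image (f := G) hinj]
  refine Finset.sum_le_sum_of_subset_of_nonneg ?_ (fun u _ _ => G_nonneg u)
  intro u hu
  obtain ⟨n, hn, rfl⟩ := Finset.mem_image.1 hu
  exact hf n hn

theorem sieve2 : ∃ C0 : ℝ, 0 < C0 ∧ ∀ b₁ b₂ N u v : ℕ, 2 ≤ N → 0 < u → 0 < v →
    ((b₂ : ℤ) - (b₁ : ℤ)).natAbs = u * v →
    (((Finset.Icc 1 N).filter (fun n => (n + b₁).Prime ∧ (n + b₂).Prime)).card : ℝ) ≤
      C0 * N / (Real.log N) ^ 2 * (G u + G v) := by
  obtain ⟨C0, hC0, h⟩ := Pool.Agent.Helper112.E456.sieve_two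
  refine ⟨C0, hC0, fun b₁ b₂ N u v hN hu hv huv => ?_⟩
  have hne : b₂ ≠ b₁ := by
    intro e
    rw [e, sub_self, Int.natAbs_zero] at huv
    have : 0 < u * v := Nat.mul_pos hu hv
    omega
  have h1 := h 1 b₁ 1 b₂ N one_pos one_pos (Nat.coprime_one_left b₁) (Nat.coprime_one_left b₂)
    (by rw [one_mul, one_mul]; exact hne) hN
  simp only [one_mul, huv] at h1
  have h2 := ratio u v hu hv
  have h3 : 0 ≤ C0 * N / (Real.log N) ^ 2 := by positivity
  calc (((Finset.Icc 1 N).filter (fun n => (n + b₁).Prime ∧ (n + b₂).Prime)).card : ℝ)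
      ≤ C0 * (((u * v : ℕ) : ℝ) / ((Nat.totient (u * v) : ℕ) : ℝ)) ^ 2 * N / (Real.log N) ^ 2 := h1
    _ = C0 * N / (Real.log N) ^ 2 * (((u * v : ℕ) : ℝ) / ((Nat.totient (u * v) : ℕ) : ℝ)) ^ 2 := by
        ring
    _ ≤ _ := mul_le_mul_of_nonneg_left h2 h3

/-- the value of the polynomial without the constant term -/
def F (a : ℕ) (b : ℤ) (n : ℕ) : ℤ := (a : ℤ) * (n : ℤ) ^ 2 + b * n

theorem large (a : ℕ) (b : ℤ) (ha : 1 ≤ a) (x n : ℕ) (hx : 1 ≤ x)
    (hn : 4 * (|(b : ℝ)| + 1) * √(x : ℝ) < n) : (x : ℤ) + 1 ≤ F a b n ∧ |b| < n := by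
  set s := √(x : ℝ) with hs
  have hx1 : (1 : ℝ) ≤ x := by exact_mod_cast hx
  have hs1 : 1 ≤ s := by
    rw [hs]; exact Real.one_le_sqrt.2 hx1
  have hs2 : s * s = x := Real.mul_self_sqrt (by linarith)
  set B : ℝ := |(b : ℝ)| with hB
  have hB0 : 0 ≤ B := abs_nonneg _
  have h1 : 4 * (B + 1) ≤ 4 * (B + 1) * s := le_mul_of_one_le_right (by positivity) hs1
  have hnB : 2 * B < n := by linarith
  have hbn : |b| < n := by
    have : (|b| : ℝ) < n := by
      have : ((|b| : ℤ) : ℝ) = B := by rw [hB]; push_cast; rfl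
      linarith
    exact_mod_cast this
  refine ⟨?_, hbn⟩
  have hn0 : (0 : ℝ) ≤ n := by positivity
  have ha1 : (1 : ℝ) ≤ a := by exact_mod_cast ha
  have hb1 : -(B * n) ≤ (b : ℝ) * n := by
    have : -B ≤ (b : ℝ) := neg_abs_le _
    nlinarith
  have h2 : (n : ℝ) ^ 2 ≤ a * (n : ℝ) ^ 2 := le_mul_of_one_le_left (by positivity) ha1
  have h3 : (n : ℝ) ^ 2 / 2 ≤ (n : ℝ) ^ 2 - B * n := by nlinarith
  have h4 : (4 * (B + 1) * s) ^ 2 ≤ (n : ℝ) ^ 2 := pow_le_pow_left₀ (by positivity) hn.le 2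
  have h5 : 16 * (x : ℝ) ≤ (4 * (B + 1) * s) ^ 2 := by
    have : (4 * (B + 1) * s) ^ 2 = 16 * (B + 1) ^ 2 * (s * s) := by ring
    rw [this, hs2]
    have : 1 ≤ (B + 1) ^ 2 := by nlinarith
    nlinarith
  have h6 : (x : ℝ) + 1 ≤ a * (n : ℝ) ^ 2 + b * n := by linarith
  have h7 : (((x : ℤ) + 1 : ℤ) : ℝ) ≤ ((F a b n : ℤ) : ℝ) := by
    unfold F; push_cast; exact h6
  exact_mod_cast h7

theorem F_sub (a : ℕ) (b : ℤ) (n m : ℕ) :
    F a b m - F a b n = ((m : ℤ) - n) * ((a : ℤ) * (n + m) + b) := by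
  unfold F; ring

/-- the number of `c` for given `n`, `m` -/
theorem pair (a : ℕ) (b σ : ℤ) (ha : 1 ≤ a) (hσ : σ = 1 ∨ σ = -1) : ∃ C0 : ℝ, 0 < C0 ∧
    ∀ x C n m : ℕ, 1 ≤ x → 2 ≤ C → C ≤ x → 4 * (|(b : ℝ)| + 1) * √(x : ℝ) < n →
      4 * (|(b : ℝ)| + 1) * √(x : ℝ) < m → n ≠ m →
      (((Icc 1 C).filter (fun c : ℕ => (F a b n + σ * c).toNat.Prime ∧
        (F a b m + σ * c).toNat.Prime)).card : ℝ) ≤
      C0 * C / (Real.log C) ^ 2 * (G (((m : ℤ) - n).natAbs) + G (((a : ℤ) * (n + m) + b).natAbs)) := by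
  obtain ⟨C0, hC0, h⟩ := sieve2
  refine ⟨C0, hC0, fun x C n m hx hC hCx hn hm hnm => ?_⟩
  obtain ⟨f1, g1⟩ := large a b ha x n hx hn
  obtain ⟨f2, g2⟩ := large a b ha x m hx hm
  have hu : 0 < ((m : ℤ) - n).natAbs := by omega
  have hpos : 0 < (a : ℤ) * (n + m) + b := by
    have h1 : -|b| ≤ b := neg_abs_le b
    have h2 : (1 : ℤ) * (n + m) ≤ (a : ℤ) * (n + m) :=
      mul_le_mul_of_nonneg_right (by exact_mod_cast ha) (by positivity)
    have h3 : 0 ≤ |b| := abs_nonneg b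
    linarith
  have hv : 0 < ((a : ℤ) * (n + m) + b).natAbs := Int.natAbs_pos.2 hpos.ne'
  have hCx' : (C : ℤ) ≤ x := by exact_mod_cast hCx
  rcases hσ with rfl | rfl
  · -- σ = 1
    obtain ⟨b₁, e1⟩ := Int.eq_ofNat_of_zero_le (by linarith : 0 ≤ F a b n)
    obtain ⟨b₂, e2⟩ := Int.eq_ofNat_of_zero_le (by linarith : 0 ≤ F a b m)
    have huv : ((b₂ : ℤ) - (b₁ : ℤ)).natAbs =
        ((m : ℤ) - n).natAbs * ((a : ℤ) * (n + m) + b).natAbs := by
      rw [← Int.natAbs_mul, ← F_sub, e1, e2]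
    refine le_trans ?_ (h b₁ b₂ C _ _ hC hu hv huv)
    have : ((Icc 1 C).filter (fun c : ℕ => (F a b n + 1 * c).toNat.Prime ∧
        (F a b m + 1 * c).toNat.Prime)) ⊆
        (Icc 1 C).filter (fun c => (c + b₁).Prime ∧ (c + b₂).Prime) := by
      intro c hc
      rw [mem_filter] at hc ⊢
      refine ⟨hc.1, ?_, ?_⟩
      · have e : (F a b n + 1 * (c : ℤ)).toNat = c + b₁ := by rw [e1]; omega
        rw [← e]; exact hc.2.1
      · have e : (F a b m + 1 * (c : ℤ)).toNat = c + b₂ := by rw [e2]; omega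
        rw [← e]; exact hc.2.2
    exact_mod_cast card_le_card this
  · -- σ = -1
    obtain ⟨b₁, e1⟩ := Int.eq_ofNat_of_zero_le (by linarith : 0 ≤ F a b n - C - 1)
    obtain ⟨b₂, e2⟩ := Int.eq_ofNat_of_zero_le (by linarith : 0 ≤ F a b m - C - 1)
    have huv : ((b₂ : ℤ) - (b₁ : ℤ)).natAbs =
        ((m : ℤ) - n).natAbs * ((a : ℤ) * (n + m) + b).natAbs := by
      rw [← Int.natAbs_mul, ← F_sub]
      congr 1
      have e1' : (b₁ : ℤ) = F a b n - C - 1 := e1.symm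
      have e2' : (b₂ : ℤ) = F a b m - C - 1 := e2.symm
      rw [e1', e2']; ring
    refine le_trans ?_ (h b₁ b₂ C _ _ hC hu hv huv)
    have : ((Icc 1 C).filter (fun c : ℕ => (F a b n + -1 * c).toNat.Prime ∧
        (F a b m + -1 * c).toNat.Prime)).card ≤
        ((Icc 1 C).filter (fun c => (c + b₁).Prime ∧ (c + b₂).Prime)).card := by
      refine card_le_card_of_injOn (fun c => C + 1 - c) ?_ ?_
      · intro c hc
        rw [coe_filter, Set.mem_ofPred_eq, mem_Icc] at hc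
        rw [coe_filter, Set.mem_ofPred_eq, mem_Icc]
        dsimp only
        obtain ⟨⟨c1, c2⟩, p1, p2⟩ := hc
        refine ⟨⟨by omega, by omega⟩, ?_, ?_⟩
        · have e : (F a b n + -1 * (c : ℤ)).toNat = C + 1 - c + b₁ := by
            have e1' : (b₁ : ℤ) = F a b n - C - 1 := e1.symm
            omega
          rw [← e]; exact p1
        · have e : (F a b m + -1 * (c : ℤ)).toNat = C + 1 - c + b₂ := by
            have e2' : (b₂ : ℤ) = F a b m - C - 1 := e2.symm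
            omega
          rw [← e]; exact p2
      · intro c hc d hd e
        rw [coe_filter, Set.mem_ofPred_eq, mem_Icc] at hc hd
        dsimp only at e
        omega
    exact_mod_cast this

end Pool.Agent.H568.PH.PSM

open Finset Filter Topology Pool.Agent.N792 Pool.Agent.H568.PH

namespace Pool.Agent.H568.PH.PSM

theorem sq_count (S T : Finset ℕ) (P : ℕ → ℕ → Prop) [∀ n c, Decidable (P n c)] :
    ∑ c ∈ T, (#(S.filter (fun n => P n c)) : ℝ) ^ 2 =
      ∑ n ∈ S, ∑ m ∈ S, (#(T.filter (fun c => P n c ∧ P m c)) : ℝ) := by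
  have h : ∀ c, (#(S.filter (fun n => P n c)) : ℝ) ^ 2 =
      ∑ n ∈ S, ∑ m ∈ S, (if P n c ∧ P m c then (1 : ℝ) else 0) := by
    intro c
    rw [sq, Finset.card_filter]
    push_cast
    rw [Finset.sum_mul_sum]
    refine sum_congr rfl fun n _ => sum_congr rfl fun m _ => ?_
    by_cases h1 : P n c <;> by_cases h2 : P m c <;> simp [h1, h2]
  rw [sum_congr rfl fun c _ => h c, Finset.sum_comm]
  refine sum_congr rfl fun n _ => ?_
  rw [Finset.sum_comm]
  refine sum_congr rfl fun m _ => ?_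
  rw [Finset.card_filter]
  push_cast
  rfl

theorem row (K : ℝ) (hPH : ∀ X : ℕ, ∑ u ∈ Icc 1 X, G u ≤ K * X) (a : ℕ) (b : ℤ) (ha : 1 ≤ a)
    (x n : ℕ) (hx : 1 ≤ x) (hn : n ≤ x) (hn1 : 1 ≤ n) :
    ∑ m ∈ (Icc 1 x).filter (fun m : ℕ => 4 * (|(b : ℝ)| + 1) * √(x : ℝ) < n ∧
      4 * (|(b : ℝ)| + 1) * √(x : ℝ) < m ∧ n ≠ m),
      (G (((m : ℤ) - n).natAbs) + G (((a : ℤ) * (n + m) + b).natAbs)) ≤
      K * (2 + 2 * a + |(b : ℝ)|) * x := by
  rw [sum_add_distrib]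
  set s := (Icc 1 x).filter (fun m : ℕ => 4 * (|(b : ℝ)| + 1) * √(x : ℝ) < n ∧
      4 * (|(b : ℝ)| + 1) * √(x : ℝ) < m ∧ n ≠ m) with hs
  have h1 : ∑ m ∈ s, G (((m : ℤ) - n).natAbs) ≤ K * x + K * x := by
    have hsub : s ⊆ (Icc 1 x).filter (fun m => m < n) ∪ (Icc 1 x).filter (fun m => n < m) := by
      intro m hm
      rw [hs, mem_filter] at hm
      rw [mem_union, mem_filter, mem_filter]
      rcases lt_or_gt_of_ne hm.2.2.2 with h | h
      · exact Or.inr ⟨hm.1, h⟩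
      · exact Or.inl ⟨hm.1, h⟩
    refine (Finset.sum_le_sum_of_subset_of_nonneg hsub fun _ _ _ => G_nonneg _).trans ?_
    rw [sum_union (by
      rw [Finset.disjoint_left]
      intro m h1 h2
      rw [mem_filter] at h1 h2
      omega)]
    refine add_le_add ?_ ?_
    · refine (sum_inj_le _ (Icc 1 x) (fun m : ℕ => ((m : ℤ) - n).natAbs) ?_ ?_).trans (hPH x)
      · intro m hm
        rw [mem_filter, mem_Icc] at hm
        rw [mem_Icc]
        omega
      · intro m hm m' hm' e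
        rw [mem_coe, mem_filter, mem_Icc] at hm hm'
        dsimp only at e
        omega
    · refine (sum_inj_le _ (Icc 1 x) (fun m : ℕ => ((m : ℤ) - n).natAbs) ?_ ?_).trans (hPH x)
      · intro m hm
        rw [mem_filter, mem_Icc] at hm
        rw [mem_Icc]
        omega
      · intro m hm m' hm' e
        rw [mem_coe, mem_filter, mem_Icc] at hm hm'
        dsimp only at e
        omega
  have h2 : ∑ m ∈ s, G (((a : ℤ) * (n + m) + b).natAbs) ≤ K * ((2 * a + |(b : ℝ)|) * x) := by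
    have hpos : ∀ m ∈ s, 0 < (a : ℤ) * (n + m) + b := by
      intro m hm
      rw [hs, mem_filter] at hm
      obtain ⟨-, g1⟩ := large a b ha x n hx hm.2.1
      have h1 : -|b| ≤ b := neg_abs_le b
      have h2 : (1 : ℤ) * (n + m) ≤ (a : ℤ) * (n + m) :=
        mul_le_mul_of_nonneg_right (by exact_mod_cast ha) (by positivity)
      have h3 : (0 : ℤ) ≤ m := by positivity
      linarith
    have e : (K * ((2 * a + |(b : ℝ)|) * x)) = K * (((2 * a + b.natAbs) * x : ℕ) : ℝ) := by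
      push_cast
      rw [Nat.cast_natAbs]
      push_cast
      rfl
    rw [e]
    refine (sum_inj_le _ (Icc 1 ((2 * a + b.natAbs) * x))
      (fun m : ℕ => ((a : ℤ) * (n + m) + b).natAbs) ?_ ?_).trans (hPH _)
    · intro m hm
      have hp := hpos m hm
      rw [hs, mem_filter, mem_Icc] at hm
      rw [mem_Icc]
      refine ⟨Int.natAbs_pos.2 hp.ne', ?_⟩
      have : (((a : ℤ) * (n + m) + b).natAbs : ℤ) ≤ (((2 * a + b.natAbs) * x : ℕ) : ℤ) := by
        rw [Int.natAbs_of_nonneg hp.le]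
        push_cast
        have h1 : (n : ℤ) + m ≤ 2 * x := by
          have : (n : ℤ) ≤ x := by exact_mod_cast hn
          have : (m : ℤ) ≤ x := by exact_mod_cast hm.1.2
          linarith
        have h2 : (a : ℤ) * (n + m) ≤ a * (2 * x) := mul_le_mul_of_nonneg_left h1 (by positivity)
        have h3 : b ≤ |b| := le_abs_self b
        have h4 : |b| ≤ |b| * x := le_mul_of_one_le_right (abs_nonneg b) (by exact_mod_cast hx)
        have h5 : (2 * (a : ℤ) + |b|) * x = a * (2 * x) + |b| * x := by ring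
        rw [h5]
        linarith
      exact_mod_cast this
    · intro m hm m' hm' e
      dsimp only at e
      have hp := hpos m hm
      have hp' := hpos m' hm'
      have e2 : (a : ℤ) * (n + m) + b = (a : ℤ) * (n + m') + b := by
        have := congrArg (fun k : ℕ => (k : ℤ)) e
        simpa [Int.natAbs_of_nonneg hp.le, Int.natAbs_of_nonneg hp'.le] using this
      have ha0 : (a : ℤ) ≠ 0 := by
        have : (1 : ℤ) ≤ a := by exact_mod_cast ha
        omega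
      have e3 : (a : ℤ) * ((m : ℤ) - m') = 0 := by linarith
      rcases mul_eq_zero.1 e3 with h | h
      · exact absurd h ha0
      · omega
  calc _ ≤ K * x + K * x + K * ((2 * a + |(b : ℝ)|) * x) := add_le_add h1 h2
    _ = K * (2 + 2 * a + |(b : ℝ)|) * x := by ring

theorem card_small (x : ℕ) (Y : ℝ) (hY : 0 ≤ Y) :
    (#((Icc 1 x).filter (fun n : ℕ => (n : ℝ) ≤ Y)) : ℝ) ≤ Y := by
  have : (Icc 1 x).filter (fun n : ℕ => (n : ℝ) ≤ Y) ⊆ Icc 1 ⌊Y⌋₊ := by
    intro n hn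
    rw [mem_filter, mem_Icc] at hn
    rw [mem_Icc]
    exact ⟨hn.1.1, Nat.le_floor hn.2⟩
  have h := card_le_card this
  rw [Nat.card_Icc, Nat.add_sub_cancel] at h
  calc (#((Icc 1 x).filter (fun n : ℕ => (n : ℝ) ≤ Y)) : ℝ) ≤ (⌊Y⌋₊ : ℝ) := by exact_mod_cast h
    _ ≤ Y := Nat.floor_le hY

theorem log_sq (x : ℝ) (hx : 1 ≤ x) : Real.log x ^ 2 ≤ 16 * √x := by
  have h0 : 0 ≤ x := by linarith
  have h1 : Real.log x = 4 * Real.log (√(√x)) := by
    rw [Real.log_sqrt (Real.sqrt_nonneg x), Real.log_sqrt h0]; ring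
  have h2 : 1 ≤ √(√x) := Real.one_le_sqrt.2 (Real.one_le_sqrt.2 hx)
  have h3 : Real.log (√(√x)) ≤ √(√x) := by
    have := Real.log_le_sub_one_of_pos (by linarith : 0 < √(√x))
    linarith
  have h4 : 0 ≤ Real.log (√(√x)) := Real.log_nonneg h2
  have h5 : √(√x) ^ 2 = √x := Real.sq_sqrt (Real.sqrt_nonneg x)
  rw [h1]
  nlinarith

theorem t_SM : S_SM := by
  rintro ⟨K, hK, hPH⟩ a b σ ha hσ
  obtain ⟨C0, hC0, hpair⟩ := pair a b σ ha hσ
  have hPH' : ∀ X : ℕ, ∑ u ∈ Icc 1 X, G u ≤ K * X := fun X => hPH X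
  have hB0 : 0 ≤ |(b : ℝ)| := abs_nonneg _
  refine ⟨16 * (8 * |(b : ℝ)| + 11) + 4 * C0 * K * (2 + 2 * a + |(b : ℝ)|), by positivity, 4,
    fun x hx C hC1 hC2 => ?_⟩
  have hx1 : 1 ≤ x := by omega
  have hxr : (4 : ℝ) ≤ x := by exact_mod_cast hx
  have hs2 : (2 : ℝ) ≤ √(x : ℝ) := by
    rw [show (2 : ℝ) = √4 by rw [show (4 : ℝ) = 2 ^ 2 by norm_num, Real.sqrt_sq (by norm_num)]]
    exact Real.sqrt_le_sqrt hxr
  rw [← Real.sqrt_eq_rpow] at hC1
  have hC : 2 ≤ C := by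
    have : (2 : ℝ) ≤ C := hs2.trans hC1
    exact_mod_cast this
  have hCr : (2 : ℝ) ≤ C := by exact_mod_cast hC
  have hlx : 0 < Real.log x := Real.log_pos (by linarith)
  have hlC : Real.log x / 2 ≤ Real.log C := by
    rw [← Real.log_sqrt (by linarith : (0 : ℝ) ≤ x)]
    exact Real.log_le_log (by linarith) hC1
  set Y : ℝ := 4 * (|(b : ℝ)| + 1) * √(x : ℝ) with hY
  have hY0 : 0 ≤ Y := by positivity
  set E : ℝ := C0 * C / (Real.log C) ^ 2 with hE
  have hE0 : 0 ≤ E := by positivity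
  have hE1 : E ≤ 4 * C0 * C / Real.log x ^ 2 := by
    have hlC0 : 0 < Real.log C := by linarith
    rw [hE, div_le_div_iff₀ (by positivity) (by positivity)]
    have : Real.log x ^ 2 ≤ 4 * Real.log C ^ 2 := by nlinarith
    calc C0 * C * Real.log x ^ 2 ≤ C0 * C * (4 * Real.log C ^ 2) := by gcongr
      _ = 4 * C0 * C * Real.log C ^ 2 := by ring
  have e0 := sq_count (Icc 1 x) (Icc 1 C) (fun n c => (F a b n + σ * c).toNat.Prime)
  have e1 : ∑ c ∈ Icc 1 C, (#((Icc 1 x).filter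
      (fun n : ℕ => ((a : ℤ) * (n : ℤ) ^ 2 + b * n + σ * c).toNat.Prime)) : ℝ) ^ 2 =
      ∑ n ∈ Icc 1 x, ∑ m ∈ Icc 1 x, (#((Icc 1 C).filter (fun c : ℕ =>
        (F a b n + σ * c).toNat.Prime ∧ (F a b m + σ * c).toNat.Prime)) : ℝ) := e0
  rw [e1]
  have key : ∀ n ∈ Icc 1 x, ∀ m ∈ Icc 1 x, (#((Icc 1 C).filter (fun c : ℕ =>
        (F a b n + σ * c).toNat.Prime ∧ (F a b m + σ * c).toNat.Prime)) : ℝ) ≤
      (if n = m then (C : ℝ) else 0) + (if (n : ℝ) ≤ Y then (C : ℝ) else 0) +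
      (if (m : ℝ) ≤ Y then (C : ℝ) else 0) +
      (if Y < n ∧ Y < m ∧ n ≠ m then
        E * (G (((m : ℤ) - n).natAbs) + G (((a : ℤ) * (n + m) + b).natAbs)) else 0) := by
    intro n hn m hm
    have htriv : (#((Icc 1 C).filter (fun c : ℕ =>
        (F a b n + σ * c).toNat.Prime ∧ (F a b m + σ * c).toNat.Prime)) : ℝ) ≤ C := by
      have := card_filter_le (Icc 1 C) (fun c : ℕ =>
        (F a b n + σ * c).toNat.Prime ∧ (F a b m + σ * c).toNat.Prime)
      rw [Nat.card_Icc, Nat.add_sub_cancel] at this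
      exact_mod_cast this
    have hC0' : (0 : ℝ) ≤ C := by positivity
    by_cases hcase : Y < n ∧ Y < m ∧ n ≠ m
    · have h := hpair x C n m hx1 hC hC2 hcase.1 hcase.2.1 hcase.2.2
      rw [if_pos hcase, if_neg hcase.2.2, if_neg (not_le.2 hcase.1), if_neg (not_le.2 hcase.2.1)]
      linarith
    · rw [if_neg hcase]
      by_cases h1 : n = m
      · rw [if_pos h1]
        split_ifs <;> linarith
      · rw [if_neg h1]
        by_cases h2 : (n : ℝ) ≤ Y
        · rw [if_pos h2]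
          split_ifs <;> linarith
        · rw [if_neg h2]
          have h3 : (m : ℝ) ≤ Y := by
            by_contra h3
            exact hcase ⟨not_le.1 h2, not_le.1 h3, h1⟩
          rw [if_pos h3]
          linarith
  refine (sum_le_sum fun n hn => sum_le_sum fun m hm => key n hn m hm).trans ?_
  simp only [sum_add_distrib]
  have cardx : #(Icc 1 x) = x := by rw [Nat.card_Icc, Nat.add_sub_cancel]
  have s1 : ∑ n ∈ Icc 1 x, ∑ m ∈ Icc 1 x, (if n = m then (C : ℝ) else 0) ≤ C * x := by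
    have : ∀ n ∈ Icc 1 x, ∑ m ∈ Icc 1 x, (if n = m then (C : ℝ) else 0) = C := by
      intro n hn
      rw [sum_ite_eq, if_pos hn]
    rw [sum_congr rfl this, sum_const, cardx, nsmul_eq_mul]
    linarith [mul_comm (x : ℝ) (C : ℝ)]
  have cs := card_small x Y hY0
  have s0 : ∑ n ∈ Icc 1 x, (if (n : ℝ) ≤ Y then (C : ℝ) else 0) ≤ C * Y := by
    rw [← sum_filter, sum_const, nsmul_eq_mul]
    have : (0 : ℝ) ≤ C := by positivity
    nlinarith
  have s2 : ∑ n ∈ Icc 1 x, ∑ m ∈ Icc 1 x, (if (n : ℝ) ≤ Y then (C : ℝ) else 0) ≤ C * x * Y := by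
    have : ∀ n ∈ Icc 1 x, ∑ m ∈ Icc 1 x, (if (n : ℝ) ≤ Y then (C : ℝ) else 0) =
        x * (if (n : ℝ) ≤ Y then (C : ℝ) else 0) := by
      intro n _
      rw [sum_const, cardx, nsmul_eq_mul]
    rw [sum_congr rfl this, ← mul_sum]
    have : (0 : ℝ) ≤ x := by positivity
    nlinarith
  have s3 : ∑ n ∈ Icc 1 x, ∑ m ∈ Icc 1 x, (if (m : ℝ) ≤ Y then (C : ℝ) else 0) ≤ C * x * Y := by
    rw [sum_const, cardx, nsmul_eq_mul]
    have : (0 : ℝ) ≤ x := by positivity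
    nlinarith
  have s4 : ∑ n ∈ Icc 1 x, ∑ m ∈ Icc 1 x, (if Y < n ∧ Y < m ∧ n ≠ m then
        E * (G (((m : ℤ) - n).natAbs) + G (((a : ℤ) * (n + m) + b).natAbs)) else 0) ≤
      x * (E * (K * (2 + 2 * a + |(b : ℝ)|) * x)) := by
    have : ∀ n ∈ Icc 1 x, ∑ m ∈ Icc 1 x, (if Y < n ∧ Y < m ∧ n ≠ m then
        E * (G (((m : ℤ) - n).natAbs) + G (((a : ℤ) * (n + m) + b).natAbs)) else 0) ≤
        E * (K * (2 + 2 * a + |(b : ℝ)|) * x) := by
      intro n hn
      rw [mem_Icc] at hn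
      rw [← sum_filter, ← mul_sum]
      exact mul_le_mul_of_nonneg_left (row K hPH' a b ha x n hx1 hn.2 hn.1) hE0
    refine (sum_le_sum this).trans ?_
    rw [sum_const, cardx, nsmul_eq_mul]
  have hx0 : (0 : ℝ) < x := by linarith
  have hC0r : (0 : ℝ) < C := by linarith
  have hlog := log_sq x (by linarith)
  have hss : √(x : ℝ) * √(x : ℝ) = x := Real.mul_self_sqrt hx0.le
  have f1 : C * x + C * x * Y + C * x * Y ≤
      16 * (8 * |(b : ℝ)| + 11) * (C * (x / Real.log x) ^ 2) := by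
    have g1 : 1 + 2 * Y ≤ (8 * |(b : ℝ)| + 11) * √(x : ℝ) := by rw [hY]; nlinarith
    have g2 : (1 + 2 * Y) * Real.log x ^ 2 ≤ 16 * (8 * |(b : ℝ)| + 11) * x := by
      calc (1 + 2 * Y) * Real.log x ^ 2
          ≤ ((8 * |(b : ℝ)| + 11) * √(x : ℝ)) * (16 * √(x : ℝ)) := by gcongr
        _ = 16 * (8 * |(b : ℝ)| + 11) * (√(x : ℝ) * √(x : ℝ)) := by ring
        _ = _ := by rw [hss]
    have g3 : C * x + C * x * Y + C * x * Y = C * x * ((1 + 2 * Y) * Real.log x ^ 2) /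
        Real.log x ^ 2 := by
      field_simp
      ring
    rw [g3]
    calc C * x * ((1 + 2 * Y) * Real.log x ^ 2) / Real.log x ^ 2
        ≤ C * x * (16 * (8 * |(b : ℝ)| + 11) * x) / Real.log x ^ 2 := by gcongr
      _ = _ := by rw [div_pow]; ring
  have f2 : x * (E * (K * (2 + 2 * a + |(b : ℝ)|) * x)) ≤
      4 * C0 * K * (2 + 2 * a + |(b : ℝ)|) * (C * (x / Real.log x) ^ 2) := by
    calc x * (E * (K * (2 + 2 * a + |(b : ℝ)|) * x))
        ≤ x * ((4 * C0 * C / Real.log x ^ 2) * (K * (2 + 2 * a + |(b : ℝ)|) * x)) := by gcongr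
      _ = _ := by rw [div_pow]; ring
  calc _ ≤ C * x + C * x * Y + C * x * Y + x * (E * (K * (2 + 2 * a + |(b : ℝ)|) * x)) := by
        gcongr
    _ ≤ 16 * (8 * |(b : ℝ)| + 11) * (C * (x / Real.log x) ^ 2) +
        4 * C0 * K * (2 + 2 * a + |(b : ℝ)|) * (C * (x / Real.log x) ^ 2) := add_le_add f1 f2
    _ = _ := by ring

end Pool.Agent.H568.PH.PSM
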